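import Pool.Agent.Lib.MP_288833_lc.Criterion

/-!
The linear criterion, final form.
-/

namespace Pool.Agent.SyncPerm

open Finset

/-- Some orbit of the stabilizer of `0` in `withMultipliers G` on the nonzero vectors misses some
hyperplane `ker w`. -/
def OrbitMissesHyperplane (p : ℕ) {V : Type*} [AddCommGroup V] [Module (ZMod p) V]
    (G : Subgroup (Equiv.Perm V)) : Prop :=
  ∃ v : V, v ≠ 0 ∧ ∃ w : V →ₗ[ZMod p] ZMod p, w ≠ 0 ∧
    ∀ g ∈ withMultipliers G, g 0 = 0 → w (g v) ≠ 0

variable {p : ℕ} [Fact p.Prime] {V : Type*} [AddCommGroup V] [Module (ZMod p) V] [Finite V]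

omit [Finite V] in
/-- The condition for an affine group `V ⋊ H`. -/
theorem orbitMisses_affine (hV : Nontrivial V) (G : Subgroup (Equiv.Perm V))
    (H : Subgroup (V ≃ₗ[ZMod p] V))
    (hGH : ∀ g : Equiv.Perm V, g ∈ G ↔ ∃ h ∈ H, ∃ c : V, ∀ x, g x = h x + c) :
    OrbitMissesHyperplane p G ↔ ∃ v : V, v ≠ 0 ∧ ∃ w : V →ₗ[ZMod p] ZMod p, w ≠ 0 ∧
      ∀ h ∈ H, w (h v) ≠ 0 := by
  constructor
  · rintro ⟨v, hv, w, hw, h⟩
    refine ⟨v, hv, w, hw, ?_⟩
    intro k hk
    have h1 : k.toEquiv ∈ G := (hGH _).2 ⟨k, hk, 0, fun x => (add_zero _).symm⟩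
    exact h k.toEquiv (le_withMultipliers G h1) (map_zero k)
  · rintro ⟨v, hv, w, hw, h⟩
    refine ⟨v, hv, w, hw, ?_⟩
    have key : ∀ g ∈ withMultipliers G, ∃ k : ZMod p, k ≠ 0 ∧ ∃ h ∈ H, ∃ c : V,
        ∀ x, g x = k • h x + c := by
      intro g hg
      induction hg using Subgroup.closure_induction with
      | mem g hg =>
        rcases hg with hg | ⟨m, hm⟩
        · obtain ⟨h, hh, c, hc⟩ := (hGH g).1 hg
          exact ⟨1, one_ne_zero, h, hh, c, fun x => by rw [one_smul]; exact hc x⟩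
        · refine ⟨(m : ZMod p), ?_, 1, H.one_mem, 0, ?_⟩
          · intro h0
            obtain ⟨x, hx⟩ := exists_ne (0 : V)
            apply hx
            apply g.injective
            rw [hm, hm, smul_zero, ← Nat.cast_smul_eq_nsmul (ZMod p), h0, zero_smul]
          · intro x
            rw [hm, Nat.cast_smul_eq_nsmul, add_zero]
            rfl
      | one => exact ⟨1, one_ne_zero, 1, H.one_mem, 0, fun x => by
          rw [one_smul, add_zero]; rfl⟩
      | mul g g' _ _ hg hg' =>
        obtain ⟨k, hk, h, hh, c, hc⟩ := hg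
        obtain ⟨k', hk', h', hh', c', hc'⟩ := hg'
        refine ⟨k * k', mul_ne_zero hk hk', h * h', H.mul_mem hh hh', k • h c' + c, ?_⟩
        intro x
        show g (g' x) = (k * k') • h (h' x) + (k • h c' + c)
        rw [hc, hc', map_add, map_smul, smul_add, smul_smul, add_assoc]
      | inv g _ hg =>
        obtain ⟨k, hk, h, hh, c, hc⟩ := hg
        refine ⟨k⁻¹, inv_ne_zero hk, h⁻¹, H.inv_mem hh, -(k⁻¹ • h⁻¹ c), ?_⟩
        intro x
        apply g.injective
        have e1 : g (g⁻¹ x) = x := g.apply_symm_apply x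
        have e2 : ∀ y, h (h⁻¹ y) = y := fun y => h.apply_symm_apply y
        rw [e1, hc, map_add, map_smul, map_neg, map_smul, e2, e2, smul_add, smul_neg, smul_smul,
          smul_smul, mul_inv_cancel₀ hk, one_smul, one_smul]
        abel
    intro g hg hg0
    obtain ⟨k, hk, h', hh', c, hc⟩ := key g hg
    have hc0 : c = 0 := by
      have := hc 0
      rw [hg0, map_zero, smul_zero, zero_add] at this
      exact this.symm
    rw [hc, hc0, add_zero, map_smul, smul_eq_mul]
    exact mul_ne_zero hk (h h' hh')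

/-- The linear criterion. -/
theorem linear_criterion_full (hd : 2 ≤ Module.finrank (ZMod p) V) (G : Subgroup (Equiv.Perm V))
    (hG : ∀ a : V, Equiv.addRight a ∈ G) :
    (HasMinRank G p ↔ OrbitMissesHyperplane p G) ∧
    (HasMinRank G (p ^ (Module.finrank (ZMod p) V - 1)) ↔ OrbitMissesHyperplane p G) ∧
    (Module.finrank (ZMod p) V ≤ 3 → (¬ Synchronizing G ↔ OrbitMissesHyperplane p G)) := by
  have h1 : HasMinRank G p ↔ OrbitMissesHyperplane p G := by
    constructor
    · exact crit_of_hasMinRank_p G hG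
    · rintro ⟨v, hv, w, hw, h⟩
      exact (hasMinRank_of_crit G hG hd v hv w hw h).1
  have h2 : HasMinRank G (p ^ (Module.finrank (ZMod p) V - 1)) ↔ OrbitMissesHyperplane p G := by
    constructor
    · apply crit_of_hasMinRank_q G hG _ ?_
      rw [natCard_eq p V, ← pow_succ', Nat.sub_add_cancel (by omega)]
    · rintro ⟨v, hv, w, hw, h⟩
      exact (hasMinRank_of_crit G hG hd v hv w hw h).2
  refine ⟨h1, h2, ?_⟩
  intro hd'
  constructor
  · intro h
    rcases hasMinRank_of_not_synchronizing (p := p) G hG hd' h with h3 | h3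
    · exact h1.1 h3
    · exact h2.1 h3
  · intro h
    exact (not_synchronizing_iff G).2 ⟨p, (Fact.out : p.Prime).two_le, h1.2 h⟩

end Pool.Agent.SyncPerm
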