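import Pool.Agent.Lib.MP_288833_lc.Defs

/-!
Basic lemmas on synchronizing permutation groups containing a regular abelian subgroup.
-/

namespace Pool.Agent.SyncPerm

open Finset

theorem mem_gen_f {Ω : Type*} (G : Subgroup (Equiv.Perm Ω)) (f : Ω → Ω) :
    (f : Function.End Ω) ∈ genMonoid G f :=
  Submonoid.subset_closure (Or.inl rfl)

theorem mem_gen_g {Ω : Type*} (G : Subgroup (Equiv.Perm Ω)) (f : Ω → Ω) (g : Equiv.Perm Ω)
    (hg : g ∈ G) : ((g : Ω → Ω) : Function.End Ω) ∈ genMonoid G f :=
  Submonoid.subset_closure (Or.inr ⟨g, hg, rfl⟩)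

theorem comp_mem_gen {Ω : Type*} (G : Subgroup (Equiv.Perm Ω)) (f : Ω → Ω) (u v : Ω → Ω)
    (hu : (u : Function.End Ω) ∈ genMonoid G f) (hv : (v : Function.End Ω) ∈ genMonoid G f) :
    ((fun x => u (v x)) : Function.End Ω) ∈ genMonoid G f := by
  have := (genMonoid G f).mul_mem hu hv
  exact this

theorem Synchronizing.mono {Ω : Type*} {G H : Subgroup (Equiv.Perm Ω)} (h : G ≤ H)
    (hG : Synchronizing G) : Synchronizing H := by
  intro f hf
  obtain ⟨k, hk, c, hc⟩ := hG f hf
  refine ⟨k, ?_, c, hc⟩
  have : genMonoid G f ≤ genMonoid H f := by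
    apply Submonoid.closure_mono
    rintro u (hu | ⟨g, hg, rfl⟩)
    · exact Or.inl hu
    · exact Or.inr ⟨g, h hg, rfl⟩
  exact this hk

theorem ncard_range_eq {Ω : Type*} [Fintype Ω] [DecidableEq Ω] (u : Ω → Ω) :
    (Set.range u).ncard = (univ.image u).card := by
  rw [← Set.ncard_coe_finset, Finset.coe_image, Finset.coe_univ, Set.image_univ]

/-- A group is not synchronizing iff it has a section-regular map of rank at least two. -/
theorem not_synchronizing_iff {Ω : Type*} [Finite Ω] [Nonempty Ω]
    (G : Subgroup (Equiv.Perm Ω)) :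
    ¬ Synchronizing G ↔ ∃ r : ℕ, 2 ≤ r ∧ HasMinRank G r := by
  classical
  have := Fintype.ofFinite Ω
  constructor
  · intro h
    unfold Synchronizing at h
    push Not at h
    obtain ⟨f, hf, hno⟩ := h
    let M : Set (Ω → Ω) := {u | (u : Function.End Ω) ∈ genMonoid G f}
    let rk : (Ω → Ω) → ℕ := fun u => (Set.range u).ncard
    obtain ⟨e, heM, hmin⟩ := Set.exists_min_image M rk (Set.toFinite M) ⟨f, mem_gen_f G f⟩
    refine ⟨rk e, ?_, f, hf, hmin, e, heM, rfl⟩
    by_contra hlt
    have h1 : (Set.range e).ncard ≤ 1 := by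
      show rk e ≤ 1
      omega
    rw [Set.ncard_le_one_iff] at h1
    obtain ⟨x0⟩ := ‹Nonempty Ω›
    obtain ⟨x, hx⟩ := hno e heM (e x0)
    exact hx (h1 ⟨x, rfl⟩ ⟨x0, rfl⟩)
  · rintro ⟨r, hr, f, hf, hmin, -⟩ hs
    obtain ⟨h, hh, c, hc⟩ := hs f hf
    have h1 := hmin h hh
    have h2 : Set.range h ⊆ {c} := by
      rintro _ ⟨x, rfl⟩
      exact hc x
    have h3 := Set.ncard_le_ncard h2
    rw [Set.ncard_singleton] at h3
    omega

variable {R : Type*} [AddCommGroup R] [Finite R]

/-- A section-regular map for a group containing a regular abelian group gives a tiling. -/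
theorem exists_tiling (G : Subgroup (Equiv.Perm R)) (hG : ∀ a : R, Equiv.addRight a ∈ G)
    (r : ℕ) (h : HasMinRank G r) :
    ∃ A B : Finset R, A.card = r ∧ 2 ≤ B.card ∧ A.card * B.card = Nat.card R ∧
      ∀ g ∈ G, ∀ a ∈ A, ∀ a' ∈ A, ∀ b ∈ B, ∀ b' ∈ B, g a - g a' = b - b' → a = a' := by
  classical
  have := Fintype.ofFinite R
  obtain ⟨f, hf, hmin, e, heM, hre⟩ := h
  let rk : (R → R) → ℕ := fun u => (univ.image u).card
  set A : Finset R := univ.image e with hA
  have hcardR : Nat.card R = (univ : Finset R).card := by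
    rw [Nat.card_eq_fintype_card, Finset.card_univ]
  have hAr : A.card = r := by rw [hA, ← ncard_range_eq, hre]
  -- main property
  have key : ∀ c : R, ∀ g ∈ G, ∀ a ∈ A, ∀ a' ∈ A, ∀ b ∈ univ.filter (fun x => e x = c),
      ∀ b' ∈ univ.filter (fun x => e x = c), g a - g a' = b - b' → a = a' := by
    intro c g hg a ha a' ha' b hb b' hb' hab
    by_contra hne
    have hb1 : e b = c := (mem_filter.1 hb).2
    have hb2 : e b' = c := (mem_filter.1 hb').2
    let t : Equiv.Perm R := Equiv.addRight (b - g a)
    have htG : t ∈ G := hG _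
    have h1 : t (g a) = b := by
      show g a + (b - g a) = b
      abel
    have h2 : t (g a') = b' := by
      show g a' + (b - g a) = b'
      have : g a' + (b - g a) = b - (g a - g a') := by abel
      rw [this, hab]; abel
    let k : R → R := fun x => e (t (g (e x)))
    have hkM : (k : Function.End R) ∈ genMonoid G f := by
      have s1 := comp_mem_gen G f g e (mem_gen_g G f g hg) heM
      have s2 := comp_mem_gen G f t _ (mem_gen_g G f t htG) s1
      exact comp_mem_gen G f e _ heM s2
    have hle : A.card ≤ (univ.image k).card := by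
      rw [hAr, ← ncard_range_eq]
      exact hmin k hkM
    have hk : univ.image k = A.image (fun x => e (t (g x))) := by
      rw [hA, Finset.image_image]
      rfl
    have hlt : (A.image (fun x => e (t (g x)))).card < A.card := by
      refine lt_of_le_of_ne card_image_le ?_
      intro heq
      have hinj := Finset.card_image_iff.1 heq
      exact hne (hinj ha ha' (by simp only [h1, h2, hb1, hb2]))
    rw [hk] at hle
    omega
  -- sizes
  have hle : ∀ c : R, A.card * (univ.filter (fun x => e x = c)).card ≤ (univ : Finset R).card := by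
    intro c
    rw [← Finset.card_product]
    apply Finset.card_le_card_of_injOn (fun x : R × R => x.1 - x.2)
    · intro x _; exact mem_coe.2 (mem_univ _)
    · rintro ⟨a, b⟩ hx ⟨a', b'⟩ hy hxy
      rw [mem_coe, mem_product] at hx hy
      have hxy' : a - b = a' - b' := hxy
      have h3 : (1 : Equiv.Perm R) a - (1 : Equiv.Perm R) a' = b - b' := by
        show a - a' = b - b'
        rw [sub_eq_sub_iff_add_eq_add] at hxy' ⊢
        rw [hxy']; abel
      have h4 := key c 1 G.one_mem a hx.1 a' hy.1 b hx.2 b' hy.2 h3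
      subst h4
      have h5 : b = b' := by
        have := sub_right_injective (b := a) hxy'
        exact this
      rw [h5]
  have hsum : (univ : Finset R).card = ∑ c ∈ A, (univ.filter (fun x => e x = c)).card := by
    rw [hA]
    exact Finset.card_eq_sum_card_image e univ
  have hAne : A.Nonempty := ⟨e 0, mem_image_of_mem _ (mem_univ _)⟩
  have heq : ∀ c ∈ A, A.card * (univ.filter (fun x => e x = c)).card = (univ : Finset R).card := by
    intro c hc
    by_contra hne
    have hlt : A.card * (univ.filter (fun x => e x = c)).card < (univ : Finset R).card :=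
      lt_of_le_of_ne (hle c) hne
    have h6 : ∑ c ∈ A, A.card * (univ.filter (fun x => e x = c)).card
        < ∑ _c ∈ A, (univ : Finset R).card :=
      Finset.sum_lt_sum (fun i _ => hle i) ⟨c, hc, hlt⟩
    rw [← Finset.mul_sum, ← hsum, Finset.sum_const, smul_eq_mul] at h6
    exact lt_irrefl _ h6
  obtain ⟨c, hc⟩ := hAne
  refine ⟨A, univ.filter (fun x => e x = c), hAr, ?_, ?_, key c⟩
  · by_contra hlt
    have h7 := heq c hc
    have hpos : 0 < (univ : Finset R).card := Finset.card_pos.2 ⟨0, mem_univ _⟩
    have h8 : (univ.filter (fun x => e x = c)).card = 1 := by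
      rcases Nat.eq_zero_or_pos (univ.filter (fun x => e x = c)).card with h0 | h0
      · rw [h0] at h7; omega
      · omega
    rw [h8, mul_one] at h7
    have hf' : A.card ≤ (univ.image f).card := by
      rw [hAr, ← ncard_range_eq]
      exact hmin f (mem_gen_f G f)
    have h9 : (univ.image f).card = (univ : Finset R).card := by
      apply le_antisymm card_image_le
      rw [← h7]
      exact hf'
    have hinj : Function.Injective f := by
      have := Finset.card_image_iff.1 h9
      intro x y hxy
      exact this (mem_coe.2 (mem_univ _)) (mem_coe.2 (mem_univ _)) hxy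
    exact hf (Finite.injective_iff_bijective.1 hinj)
  · rw [hcardR]; exact heq c hc

/-- From an invariant difference set with clique `A` and coclique `B`, `|A||B| = |R|`,
one gets a section-regular map of rank `|A|`. -/
theorem hasMinRank_of (G : Subgroup (Equiv.Perm R)) (T : Set R)
    (hT : ∀ g ∈ G, ∀ x y : R, y - x ∈ T → g y - g x ∈ T) (h0 : (0 : R) ∉ T)
    (A B : Finset R) (hB : 2 ≤ B.card) (hAB : A.card * B.card = Nat.card R)
    (hAT : ∀ a ∈ A, ∀ a' ∈ A, a ≠ a' → a - a' ∈ T)
    (hBT : ∀ b ∈ B, ∀ b' ∈ B, b - b' ∉ T) : HasMinRank G A.card := by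
  classical
  have := Fintype.ofFinite R
  have hcardR : Nat.card R = (univ : Finset R).card := by
    rw [Nat.card_eq_fintype_card, Finset.card_univ]
  have hcpos : 0 < (univ : Finset R).card := Finset.card_pos.2 ⟨0, mem_univ _⟩
  have hApos : 0 < A.card := by
    rcases Nat.eq_zero_or_pos A.card with h | h
    · rw [h, zero_mul, hcardR] at hAB; omega
    · exact h
  have hkey : ∀ a ∈ A, ∀ b ∈ B, ∀ a' ∈ A, ∀ b' ∈ B, a - b = a' - b' → a = a' ∧ b = b' := by
    intro a ha b hb a' ha' b' hb' hxy'
    have h3 : a - a' = b - b' := by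
      rw [sub_eq_sub_iff_add_eq_add] at hxy' ⊢
      rw [hxy']; abel
    have h4 : a = a' := by
      by_contra hne
      exact hBT b hb b' hb' (h3 ▸ hAT a ha a' ha' hne)
    subst h4
    exact ⟨rfl, sub_right_injective (b := a) hxy'⟩
  have hinj : Set.InjOn (fun x : R × R => x.1 - x.2) (A ×ˢ B : Finset (R × R)) := by
    rintro ⟨a, b⟩ hx ⟨a', b'⟩ hy hxy
    rw [mem_coe, mem_product] at hx hy
    obtain ⟨h1, h2⟩ := hkey a hx.1 b hx.2 a' hy.1 b' hy.2 hxy
    rw [h1, h2]
  have himg : (A ×ˢ B).image (fun x : R × R => x.1 - x.2) = univ := by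
    apply Finset.eq_univ_of_card
    rw [Finset.card_image_of_injOn hinj, Finset.card_product, hAB, Nat.card_eq_fintype_card]
  have hex : ∀ x : R, ∃ a b : R, a ∈ A ∧ b ∈ B ∧ x = a - b := by
    intro x
    have : x ∈ (A ×ˢ B).image (fun x : R × R => x.1 - x.2) := by rw [himg]; exact mem_univ _
    obtain ⟨⟨a, b⟩, hab, rfl⟩ := mem_image.1 this
    exact ⟨a, b, (mem_product.1 hab).1, (mem_product.1 hab).2, rfl⟩
  choose α β hα hβ hx using hex
  have hrange : univ.image α = A := by
    apply Finset.Subset.antisymm
    · intro y hy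
      obtain ⟨x, -, rfl⟩ := mem_image.1 hy
      exact hα x
    · intro a ha
      obtain ⟨b, hb⟩ : B.Nonempty := card_pos.1 (by omega)
      refine mem_image.2 ⟨a - b, mem_univ _, ?_⟩
      exact (hkey _ (hα (a - b)) _ (hβ (a - b)) a ha b hb (hx (a - b)).symm).1
  have hnb : ¬ Function.Bijective α := by
    intro hb
    have h1 : (univ.image α).card = (univ : Finset R).card := card_image_of_injective _ hb.1
    rw [hrange] at h1
    rw [hcardR] at hAB
    nlinarith
  have hend : ∀ k ∈ genMonoid G α, ∀ x y : R, y - x ∈ T → k y - k x ∈ T := by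
    intro k hk
    induction hk using Submonoid.closure_induction with
    | mem k hk =>
      rcases hk with hk | ⟨g, hg, rfl⟩
      · have hk' : k = α := hk
        intro x y hxy
        rw [hk']
        apply hAT _ (hα y) _ (hα x)
        intro heq
        apply hBT (β x) (hβ x) (β y) (hβ y)
        have h1 := hx y
        have h2 := hx x
        have : β x - β y = y - x := by
          calc β x - β y = (α y - β y) - (α y - β x) := by abel
            _ = (α y - β y) - (α x - β x) := by rw [heq]
            _ = y - x := by rw [← h1, ← h2]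
        rw [this]; exact hxy
      · exact hT g hg
    | one => intro x y hxy; exact hxy
    | mul u v _ _ hu hv =>
      intro x y hxy
      exact hu _ _ (hv _ _ hxy)
  refine ⟨α, hnb, ?_, α, mem_gen_f G α, ?_⟩
  · intro h hh
    have h1 : (A.image h).card = A.card := by
      apply Finset.card_image_of_injOn
      intro a ha a' ha' heq
      by_contra hne
      have := hend h hh a' a (hAT a ha a' ha' hne)
      rw [heq, sub_self] at this
      exact h0 this
    rw [← h1, ncard_range_eq]
    apply card_le_card
    apply Finset.image_subset_image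
    exact subset_univ _
  · rw [ncard_range_eq, hrange]

end Pool.Agent.SyncPerm
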