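import Pool.Agent.Lib.MP_288833_lc.Linear

/-!
The linear criterion for groups containing the translations of a vector space over a prime field.
-/

namespace Pool.Agent.SyncPerm

open Finset

variable {p : ℕ} [Fact p.Prime] {V : Type*} [AddCommGroup V] [Module (ZMod p) V] [Finite V]

theorem natCard_eq (p : ℕ) [Fact p.Prime] (V : Type*) [AddCommGroup V] [Module (ZMod p) V]
    [Finite V] : Nat.card V = p ^ Module.finrank (ZMod p) V := by
  have := Fintype.ofFinite V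
  rw [Nat.card_eq_fintype_card, Module.card_eq_pow_finrank (K := ZMod p), ZMod.card]

theorem crit_of_coclique (G : Subgroup (Equiv.Perm V)) (T : Set V)
    (hT : ∀ g ∈ withMultipliers G, ∀ x y : V, y - x ∈ T ↔ g y - g x ∈ T) (h0 : (0 : V) ∉ T)
    (hne : T.Nonempty) (B : Finset V) (hB : p * B.card = Nat.card V)
    (hco : ∀ b ∈ B, ∀ b' ∈ B, b - b' ∉ T) :
    ∃ v : V, v ≠ 0 ∧ ∃ w : V →ₗ[ZMod p] ZMod p, w ≠ 0 ∧
      ∀ g ∈ withMultipliers G, g 0 = 0 → w (g v) ≠ 0 := by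
  obtain ⟨w, hw, hwT⟩ := exists_hyperplane (p := p) T h0 (by
    intro u hu z hz
    obtain ⟨σ, hσ, hσx⟩ := smul_mem_withMultipliers G u hu
    have h1 : z - 0 ∈ T := by rwa [sub_zero]
    have h2 := (hT σ hσ 0 z).1 h1
    rwa [hσx, hσx, smul_zero, sub_zero] at h2) B hB hco
  obtain ⟨v, hv⟩ := hne
  refine ⟨v, ?_, w, hw, ?_⟩
  · rintro rfl
    exact h0 hv
  · intro g hg hg0
    apply hwT
    have h1 : v - 0 ∈ T := by rwa [sub_zero]
    have h2 := (hT g hg 0 v).1 h1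
    rwa [hg0, sub_zero] at h2

theorem crit_of_hasMinRank_p (G : Subgroup (Equiv.Perm V)) (hG : ∀ a : V, Equiv.addRight a ∈ G)
    (h : HasMinRank G p) :
    ∃ v : V, v ≠ 0 ∧ ∃ w : V →ₗ[ZMod p] ZMod p, w ≠ 0 ∧
      ∀ g ∈ withMultipliers G, g 0 = 0 → w (g v) ≠ 0 := by
  obtain ⟨A, B, T, hA, hB, hAB, hT, h0, hcl, hco⟩ := exists_rational G hG p h
  have hp : 1 < p := (Fact.out : p.Prime).one_lt
  apply crit_of_coclique G T hT h0 ?_ B (by rw [← hA]; exact hAB) hco
  obtain ⟨a, ha, a', ha', hne⟩ := Finset.one_lt_card.1 (by omega : 1 < A.card)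
  exact ⟨a - a', hcl a ha a' ha' hne⟩

theorem crit_of_hasMinRank_q (G : Subgroup (Equiv.Perm V)) (hG : ∀ a : V, Equiv.addRight a ∈ G)
    (r : ℕ) (hr : p * r = Nat.card V) (h : HasMinRank G r) :
    ∃ v : V, v ≠ 0 ∧ ∃ w : V →ₗ[ZMod p] ZMod p, w ≠ 0 ∧
      ∀ g ∈ withMultipliers G, g 0 = 0 → w (g v) ≠ 0 := by
  obtain ⟨A, B, T, hA, hB, hAB, hT, h0, hcl, hco⟩ := exists_rational G hG r h
  apply crit_of_coclique G {z | z ≠ 0 ∧ z ∉ T} ?_ ?_ ?_ A (by rw [hA]; exact hr) ?_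
  · intro g hg x y
    show (y - x ≠ 0 ∧ y - x ∉ T) ↔ (g y - g x ≠ 0 ∧ g y - g x ∉ T)
    rw [← hT g hg x y, sub_ne_zero, sub_ne_zero, g.injective.ne_iff]
  · rintro ⟨h1, -⟩
    exact h1 rfl
  · obtain ⟨b, hb, b', hb', hne⟩ := Finset.one_lt_card.1 (by omega : 1 < B.card)
    exact ⟨b - b', sub_ne_zero.2 hne, hco b hb b' hb'⟩
  · rintro a ha a' ha' ⟨h1, h2⟩
    exact h2 (hcl a ha a' ha' (sub_ne_zero.1 h1))

/-- If the orbit of `v` misses the kernel of `w` then there are section-regular maps. -/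
theorem hasMinRank_of_crit (G : Subgroup (Equiv.Perm V)) (hG : ∀ a : V, Equiv.addRight a ∈ G)
    (hd : 2 ≤ Module.finrank (ZMod p) V) (v : V) (hv : v ≠ 0) (w : V →ₗ[ZMod p] ZMod p)
    (hw : w ≠ 0) (h : ∀ g ∈ withMultipliers G, g 0 = 0 → w (g v) ≠ 0) :
    HasMinRank G p ∧ HasMinRank G (p ^ (Module.finrank (ZMod p) V - 1)) := by
  classical
  have := Fintype.ofFinite V
  have hp : 1 < p := (Fact.out : p.Prime).one_lt
  let T : Set V := {z | ∃ g ∈ withMultipliers G, g 0 = 0 ∧ z = g v}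
  have hTf : ∀ k ∈ withMultipliers G, ∀ x y : V, y - x ∈ T → k y - k x ∈ T := by
    rintro k hk x y ⟨g, hg, hg0, hxy⟩
    have ht : ∀ a : V, Equiv.addRight a ∈ withMultipliers G := fun a =>
      le_withMultipliers G (hG a)
    refine ⟨Equiv.addRight (-(k x)) * (k * (Equiv.addRight x * g)),
      Subgroup.mul_mem _ (ht _) (Subgroup.mul_mem _ hk (Subgroup.mul_mem _ (ht _) hg)), ?_, ?_⟩
    · show k (g 0 + x) + -(k x) = 0
      rw [hg0, zero_add]; abel
    · show k y - k x = k (g v + x) + -(k x)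
      rw [← hxy, sub_add_cancel]; abel
  have h0 : (0 : V) ∉ T := by
    rintro ⟨g, hg, hg0, hgv⟩
    apply hv
    apply g.injective
    rw [← hgv, hg0]
  have hTs : ∀ u : ZMod p, u ≠ 0 → u • v ∈ T := by
    intro u hu
    obtain ⟨σ, hσ, hσx⟩ := smul_mem_withMultipliers G u hu
    exact ⟨σ, hσ, by rw [hσx, smul_zero], (hσx v).symm⟩
  have hTw : ∀ t ∈ T, w t ≠ 0 := by
    rintro t ⟨g, hg, hg0, rfl⟩
    exact h g hg hg0
  let A : Finset V := univ.image (fun k : ZMod p => k • v)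
  let B : Finset V := univ.filter (fun y => w y = 0)
  have hAc : A.card = p := by
    show (univ.image (fun k : ZMod p => k • v)).card = p
    rw [Finset.card_image_of_injective, Finset.card_univ, ZMod.card]
    intro k k' hkk
    exact smul_left_injective _ hv hkk
  have hBc : p * B.card = Nat.card V := by
    rw [Nat.card_eq_fintype_card]
    exact fiber_card w hw 0
  have hBc' : B.card = p ^ (Module.finrank (ZMod p) V - 1) := by
    rw [natCard_eq p V] at hBc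
    obtain ⟨d, hdd⟩ : ∃ d, Module.finrank (ZMod p) V = d + 1 :=
      ⟨_, (Nat.succ_pred_eq_of_pos (by omega)).symm⟩
    rw [hdd] at hBc ⊢
    rw [pow_succ, mul_comm] at hBc
    exact Nat.eq_of_mul_eq_mul_right (by omega) hBc
  have hcl : ∀ a ∈ A, ∀ a' ∈ A, a ≠ a' → a - a' ∈ T := by
    intro a ha a' ha' hne
    obtain ⟨k, -, rfl⟩ := mem_image.1 ha
    obtain ⟨k', -, rfl⟩ := mem_image.1 ha'
    rw [← sub_smul]
    apply hTs
    intro hkk
    exact hne (by rw [sub_eq_zero.1 hkk])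
  have hco : ∀ b ∈ B, ∀ b' ∈ B, b - b' ∉ T := by
    intro b hb b' hb' ht
    apply hTw _ ht
    have h1 : w b = 0 := (mem_filter.1 hb).2
    have h2 : w b' = 0 := (mem_filter.1 hb').2
    rw [map_sub, h1, h2, sub_zero]
  have hB2 : 2 ≤ B.card := by
    rw [hBc']
    have : p ^ 1 ≤ p ^ (Module.finrank (ZMod p) V - 1) :=
      Nat.pow_le_pow_right (by omega) (by omega)
    rw [pow_one] at this
    omega
  constructor
  · rw [← hAc]
    exact hasMinRank_of G T (fun g hg => hTf g (le_withMultipliers G hg)) h0 A B hB2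
      (by rw [hAc]; exact hBc) hcl hco
  · rw [← hBc']
    refine hasMinRank_of G {z | z ≠ 0 ∧ z ∉ T} ?_ (fun h => h.1 rfl) B A (by omega)
      (by rw [hAc, mul_comm]; exact hBc) ?_ ?_
    · rintro g hg x y ⟨h1, h2⟩
      refine ⟨sub_ne_zero.2 (g.injective.ne (sub_ne_zero.1 h1)), ?_⟩
      intro h3
      apply h2
      have h4 := hTf g⁻¹ (Subgroup.inv_mem _ (le_withMultipliers G hg)) _ _ h3
      have e1 : ∀ z, g⁻¹ (g z) = z := fun z => g.symm_apply_apply z
      rwa [e1, e1] at h4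
    · intro b hb b' hb' hne
      exact ⟨sub_ne_zero.2 hne, hco b hb b' hb'⟩
    · rintro a ha a' ha' ⟨h1, h2⟩
      exact h2 (hcl a ha a' ha' (sub_ne_zero.1 h1))

theorem hasMinRank_of_not_synchronizing (G : Subgroup (Equiv.Perm V))
    (hG : ∀ a : V, Equiv.addRight a ∈ G)
    (hd : Module.finrank (ZMod p) V ≤ 3)
    (h : ¬ Synchronizing G) :
    HasMinRank G p ∨ HasMinRank G (p ^ (Module.finrank (ZMod p) V - 1)) := by
  have hp : 1 < p := (Fact.out : p.Prime).one_lt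
  obtain ⟨r, hr, h⟩ := (not_synchronizing_iff G).1 h
  obtain ⟨A, B, hA, hB, hAB, -⟩ := exists_tiling G hG r h
  rw [natCard_eq p V] at hAB
  have hdvd : r ∣ p ^ Module.finrank (ZMod p) V := ⟨B.card, by rw [← hAB, hA]⟩
  obtain ⟨i, hi, hri⟩ := (Nat.dvd_prime_pow (Fact.out : p.Prime)).1 hdvd
  have hi1 : 1 ≤ i := by
    rcases Nat.eq_zero_or_pos i with h0 | h0
    · rw [h0, pow_zero] at hri; omega
    · exact h0
  have hi2 : i ≠ Module.finrank (ZMod p) V := by
    intro heq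
    rw [hA, hri, heq] at hAB
    have hpos : 0 < p ^ Module.finrank (ZMod p) V := pow_pos (by omega) _
    nlinarith
  subst hri
  rcases (by omega : i = 1 ∨ i = Module.finrank (ZMod p) V - 1) with h1 | h1
  · left
    rw [h1, pow_one] at h
    exact h
  · right
    rw [h1] at h
    exact h

/-- Linear criterion. -/
theorem linear_criterion (G : Subgroup (Equiv.Perm V)) (hG : ∀ a : V, Equiv.addRight a ∈ G)
    (hd : 2 ≤ Module.finrank (ZMod p) V) (hd' : Module.finrank (ZMod p) V ≤ 3) :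
    Synchronizing G ↔ ∀ v : V, v ≠ 0 → ∀ w : V →ₗ[ZMod p] ZMod p, w ≠ 0 →
      ∃ g ∈ withMultipliers G, g 0 = 0 ∧ w (g v) = 0 := by
  constructor
  · intro h v hv w hw
    by_contra hcon
    push Not at hcon
    obtain ⟨h1, -⟩ := hasMinRank_of_crit G hG hd v hv w hw hcon
    exact (not_synchronizing_iff G).2 ⟨p, (Fact.out : p.Prime).two_le, h1⟩ h
  · intro h
    by_contra hcon
    have h1 := hasMinRank_of_not_synchronizing (p := p) G hG hd' hcon
    have h2 : ∃ v : V, v ≠ 0 ∧ ∃ w : V →ₗ[ZMod p] ZMod p, w ≠ 0 ∧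
      ∀ g ∈ withMultipliers G, g 0 = 0 → w (g v) ≠ 0 := by
      rcases h1 with h1 | h1
      · exact crit_of_hasMinRank_p G hG h1
      · apply crit_of_hasMinRank_q G hG _ ?_ h1
        rw [natCard_eq p V, ← pow_succ', Nat.sub_add_cancel (by omega)]
    obtain ⟨v, hv, w, hw, h3⟩ := h2
    obtain ⟨g, hg, hg0, hgv⟩ := h v hv w hw
    exact h3 g hg hg0 hgv

end Pool.Agent.SyncPerm
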