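import Mathlib

/-!
Definitions for synchronizing permutation groups.
-/

namespace Pool.Agent.SyncPerm

/-- The transformation monoid generated by a permutation group `G` and a map `f`. -/
def genMonoid {Ω : Type*} (G : Subgroup (Equiv.Perm Ω)) (f : Ω → Ω) :
    Submonoid (Function.End Ω) :=
  Submonoid.closure ({f} ∪ {h : Ω → Ω | ∃ g ∈ G, h = (g : Ω → Ω)})

/-- `G` is synchronizing: for every map `f` that is not a permutation, the monoid generated by
`G` and `f` contains a constant map. -/
def Synchronizing {Ω : Type*} (G : Subgroup (Equiv.Perm Ω)) : Prop :=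
  ∀ f : Ω → Ω, ¬ Function.Bijective f → ∃ h ∈ genMonoid G f, ∃ c : Ω, ∀ x : Ω, h x = c

/-- `G` has a section-regular map of rank `r`: there is a map `f` that is not a permutation such
that `r` is the least number of points in the image of a map in the monoid generated by `G` and
`f`. -/
def HasMinRank {Ω : Type*} (G : Subgroup (Equiv.Perm Ω)) (r : ℕ) : Prop :=
  ∃ f : Ω → Ω, ¬ Function.Bijective f ∧
    (∀ h ∈ genMonoid G f, r ≤ (Set.range (h : Ω → Ω)).ncard) ∧
    ∃ h ∈ genMonoid G f, (Set.range (h : Ω → Ω)).ncard = r

/-- For a permutation group `G` on an abelian group `R`: the group generated by `G` and all the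
permutations of `R` of the form `x ↦ m • x` with `m` a natural number. -/
def withMultipliers {R : Type*} [AddCommGroup R] (G : Subgroup (Equiv.Perm R)) :
    Subgroup (Equiv.Perm R) :=
  Subgroup.closure ((G : Set (Equiv.Perm R)) ∪ {σ | ∃ m : ℕ, ∀ x : R, σ x = m • x})

end Pool.Agent.SyncPerm
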