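import Pool.Agent.Lib.MP_288833_lc.Base

/-!
Matrices invariant under left and right translations of a finite group, over a prime field.
-/

namespace Pool.Agent.SyncPerm

open Finset Matrix

variable {T : Type*} [Group T] [Fintype T] [DecidableEq T]

/-- the matrix of a translation -/
def transM (K : Type*) [CommRing K] (z : T) : Matrix T T K :=
  Matrix.of fun x y => if x = z * y then 1 else 0

theorem transM_mul {K : Type*} [CommRing K] (z z' : T) :
    transM K z * transM K z' = transM K (z * z') := by
  ext x y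
  rw [Matrix.mul_apply]
  simp only [transM, Matrix.of_apply]
  rw [Finset.sum_eq_single (z' * y)]
  · simp [mul_assoc]
  · intro b _ hb
    rw [if_neg hb, mul_zero]
  · intro h
    exact absurd (mem_univ _) h

theorem transM_pow {K : Type*} [CommRing K] (z : T) (k : ℕ) :
    transM K z ^ k = transM K (z ^ k) := by
  induction k with
  | zero =>
    rw [pow_zero, pow_zero]
    ext x y
    simp [transM, Matrix.one_apply]
  | succ k ih => rw [pow_succ, ih, transM_mul, pow_succ]

theorem mul_transM {K : Type*} [CommRing K] (M : Matrix T T K) (z x y : T) :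
    (M * transM K z) x y = M x (z * y) := by
  rw [Matrix.mul_apply]
  simp only [transM, Matrix.of_apply]
  rw [Finset.sum_eq_single (z * y)]
  · simp
  · intro b _ hb
    rw [if_neg hb, mul_zero]
  · intro h
    exact absurd (mem_univ _) h

theorem transM_mul_apply {K : Type*} [CommRing K] (M : Matrix T T K) (z x y : T) :
    (transM K z * M) x y = M (z⁻¹ * x) y := by
  rw [Matrix.mul_apply]
  simp only [transM, Matrix.of_apply]
  rw [Finset.sum_eq_single (z⁻¹ * x)]
  · simp
  · intro b _ hb
    rw [if_neg, zero_mul]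
    rintro rfl
    apply hb
    simp
  · intro h
    exact absurd (mem_univ _) h

/-- invariance of a matrix under left and right translations -/
def BiInv {K : Type*} (M : Matrix T T K) : Prop :=
  (∀ s x y : T, M (s * x) (s * y) = M x y) ∧ ∀ t x y : T, M (x * t) (y * t) = M x y

theorem BiInv.pow {K : Type*} [CommRing K] {M : Matrix T T K} (hM : BiInv M) (k : ℕ) :
    BiInv (M ^ k) := by
  induction k with
  | zero =>
    constructor
    · intro s x y
      simp [Matrix.one_apply]
    · intro t x y
      simp [Matrix.one_apply]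
  | succ k ih =>
    constructor
    · intro s x y
      rw [pow_succ, Matrix.mul_apply, Matrix.mul_apply, ← Equiv.sum_comp (Equiv.mulLeft s)]
      apply Finset.sum_congr rfl
      intro u _
      show (M ^ k) (s * x) (s * u) * M (s * u) (s * y) = _
      rw [ih.1, hM.1]
    · intro t x y
      rw [pow_succ, Matrix.mul_apply, Matrix.mul_apply, ← Equiv.sum_comp (Equiv.mulRight t)]
      apply Finset.sum_congr rfl
      intro u _
      show (M ^ k) (x * t) (u * t) * M (u * t) (y * t) = _
      rw [ih.2, hM.2]

theorem trace_mul_transM {K : Type*} [CommRing K] {M : Matrix T T K} (hM : BiInv M) (z : T) :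
    (M * transM K z).trace = (Fintype.card T : K) * M 1 z := by
  rw [Matrix.trace]
  have : ∀ x : T, (M * transM K z).diag x = M 1 z := by
    intro x
    rw [Matrix.diag_apply, mul_transM]
    have h := hM.2 x 1 z
    rwa [one_mul] at h
  rw [Finset.sum_congr rfl (fun x _ => this x), Finset.sum_const, Finset.card_univ, nsmul_eq_mul]

/-- Frobenius for bi-invariant matrices over a prime field. -/
theorem pow_apply_pow (q : ℕ) [Fact q.Prime] (hq : ¬ q ∣ Fintype.card T)
    {M : Matrix T T (ZMod q)} (hM : BiInv M) (z : T) : (M ^ q) 1 (z ^ q) = M 1 z := by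
  have hcomm : Commute M (transM (ZMod q) z) := by
    ext x y
    rw [mul_transM, transM_mul_apply]
    have h := hM.1 z (z⁻¹ * x) y
    rw [mul_inv_cancel_left] at h
    exact h
  have h1 : (M * transM (ZMod q) z) ^ q = M ^ q * transM (ZMod q) (z ^ q) := by
    rw [hcomm.mul_pow, transM_pow]
  have h2 := ZMod.trace_pow_card (M * transM (ZMod q) z)
  rw [h1, trace_mul_transM (hM.pow q), trace_mul_transM hM, ZMod.pow_card] at h2
  have hne : (Fintype.card T : ZMod q) ≠ 0 := by
    intro h
    rw [ZMod.natCast_eq_zero_iff] at h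
    exact hq h
  exact mul_left_cancel₀ hne h2

/-- invariance under a permutation group is preserved by powers -/
theorem inv_pow_of_inv {K : Type*} [CommRing K] (G : Subgroup (Equiv.Perm T)) {M : Matrix T T K}
    (hM : ∀ g ∈ G, ∀ x y, M (g x) (g y) = M x y) (k : ℕ) :
    ∀ g ∈ G, ∀ x y, (M ^ k) (g x) (g y) = (M ^ k) x y := by
  intro g hg
  induction k with
  | zero =>
    intro x y
    simp [Matrix.one_apply]
  | succ k ih =>
    intro x y
    rw [pow_succ, Matrix.mul_apply, Matrix.mul_apply, ← Equiv.sum_comp g]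
    apply Finset.sum_congr rfl
    intro u _
    rw [ih, hM g hg]

/-- Schur's theorem for groups containing both regular representations. -/
theorem schur_diag (G : Subgroup (Equiv.Perm T)) (hL : ∀ s : T, Equiv.mulLeft s ∈ G)
    (hR : ∀ t : T, Equiv.mulRight t ∈ G) (q : ℕ) (hqp : q.Prime) (hq : ¬ q ∣ Fintype.card T)
    (S : Set T) (hS : ∀ g ∈ G, ∀ x y : T, y * x⁻¹ ∈ S ↔ g y * (g x)⁻¹ ∈ S) :
    ∀ g ∈ G, ∀ x y : T, y * x⁻¹ ∈ {z : T | ∃ s ∈ S, z = s ^ q} ↔
      g y * (g x)⁻¹ ∈ {z : T | ∃ s ∈ S, z = s ^ q} := by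
  classical
  have : Fact q.Prime := ⟨hqp⟩
  have hco : (Nat.card T).Coprime q := by
    rw [Nat.card_eq_fintype_card]
    exact ((Nat.Prime.coprime_iff_not_dvd hqp).2 hq).symm
  let M : Matrix T T (ZMod q) := Matrix.of fun x y => if y * x⁻¹ ∈ S then 1 else 0
  have hMG : ∀ g ∈ G, ∀ x y, M (g x) (g y) = M x y := by
    intro g hg x y
    show (if g y * (g x)⁻¹ ∈ S then (1 : ZMod q) else 0) = if y * x⁻¹ ∈ S then 1 else 0
    simp only [hS g hg x y]
  have hMb : BiInv M := ⟨fun s x y => hMG _ (hL s) x y, fun t x y => hMG _ (hR t) x y⟩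
  have hMq := inv_pow_of_inv G hMG q
  have hval : ∀ x y : T, (M ^ q) x y = if y * x⁻¹ ∈ {z : T | ∃ s ∈ S, z = s ^ q} then 1 else 0 := by
    intro x y
    have h1 : (M ^ q) x y = (M ^ q) 1 (y * x⁻¹) := by
      have := (hMb.pow q).2 x 1 (y * x⁻¹)
      rw [one_mul, inv_mul_cancel_right] at this
      exact this
    obtain ⟨w, hw⟩ := (powCoprime hco).surjective (y * x⁻¹)
    have hw' : w ^ q = y * x⁻¹ := hw
    rw [h1, ← hw', pow_apply_pow q hq hMb w]
    show (if w * 1⁻¹ ∈ S then (1 : ZMod q) else 0) = _
    rw [inv_one, mul_one]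
    have h2 : w ∈ S ↔ w ^ q ∈ {z : T | ∃ s ∈ S, z = s ^ q} := by
      constructor
      · intro h
        exact ⟨w, h, rfl⟩
      · rintro ⟨s, hs, hws⟩
        have : w = s := (powCoprime hco).injective hws
        rw [this]; exact hs
    simp only [h2]
  intro g hg x y
  have h3 := hMq g hg x y
  rw [hval, hval] at h3
  constructor
  · intro h
    by_contra h'
    rw [if_neg h', if_pos h] at h3
    exact zero_ne_one h3
  · intro h
    by_contra h'
    rw [if_pos h, if_neg h'] at h3
    exact one_ne_zero h3

end Pool.Agent.SyncPerm
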