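import Pool.Agent.Lib.MP_288833_lc.Diag

/-!
Power maps and tilings in finite groups.
-/

namespace Pool.Agent.SyncPerm

open Finset Matrix

variable {T : Type*} [Group T] [Fintype T] [DecidableEq T]

/-- indicator function -/
def ind (A : Finset T) (x : T) : ℕ := if x ∈ A then 1 else 0

/-- number of bi-translates of `A` containing both points -/
def NN (A : Finset T) (x y : T) : ℕ :=
  ∑ p : T × T, ind A (p.1 * x * p.2) * ind A (p.1 * y * p.2)

theorem NN_symm (A : Finset T) (x y : T) : NN A x y = NN A y x := by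
  unfold NN
  exact Finset.sum_congr rfl fun p _ => mul_comm _ _

theorem NN_pos {A : Finset T} {x y : T} (s t : T) (h1 : s * x * t ∈ A) (h2 : s * y * t ∈ A) :
    0 < NN A x y := by
  unfold NN
  apply Finset.sum_pos' (fun _ _ => Nat.zero_le _)
  refine ⟨(s, t), mem_univ _, ?_⟩
  simp [ind, h1, h2]

theorem exists_of_NN_ne_zero {A : Finset T} {x y : T} (h : NN A x y ≠ 0) :
    ∃ s t : T, s * x * t ∈ A ∧ s * y * t ∈ A := by
  unfold NN at h
  obtain ⟨p, -, hp⟩ := Finset.exists_ne_zero_of_sum_ne_zero h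
  refine ⟨p.1, p.2, ?_, ?_⟩
  · by_contra hcon
    apply hp
    simp [ind, hcon]
  · by_contra hcon
    apply hp
    simp [ind, hcon]

theorem sum_ind (A : Finset T) (s t : T) : ∑ u : T, ind A (s * u * t) = A.card := by
  have h1 : ∑ u : T, ind A (s * u * t) = ∑ v : T, ind A v :=
    Equiv.sum_comp ((Equiv.mulLeft s).trans (Equiv.mulRight t)) (fun v => ind A v)
  rw [h1]
  simp [ind]

theorem sum_pair (A : Finset T) (x : T) :
    ∑ p : T × T, ind A (p.1 * x * p.2) = Fintype.card T * A.card := by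
  rw [Fintype.sum_prod_type]
  have : ∀ s : T, ∑ t : T, ind A (s * x * t) = A.card := by
    intro s
    have h := sum_ind A (s * x) 1
    simpa using h
  simp only [this]
  rw [Finset.sum_const, Finset.card_univ, smul_eq_mul]

theorem NN_row (A : Finset T) (x : T) :
    ∑ y : T, NN A x y = Fintype.card T * A.card * A.card := by
  unfold NN
  rw [Finset.sum_comm]
  have : ∀ p : T × T, ∑ y : T, ind A (p.1 * x * p.2) * ind A (p.1 * y * p.2) =
      ind A (p.1 * x * p.2) * A.card := by
    intro p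
    rw [← Finset.mul_sum, sum_ind]
  simp only [this]
  rw [← Finset.sum_mul, sum_pair]

theorem NN_left (A : Finset T) (s x y : T) : NN A (s * x) (s * y) = NN A x y := by
  unfold NN
  rw [← Equiv.sum_comp ((Equiv.mulRight s).prodCongr (Equiv.refl T))
    (fun p : T × T => ind A (p.1 * x * p.2) * ind A (p.1 * y * p.2))]
  apply Finset.sum_congr rfl
  intro p _
  simp [mul_assoc]

theorem NN_right (A : Finset T) (t x y : T) : NN A (x * t) (y * t) = NN A x y := by
  unfold NN
  rw [← Equiv.sum_comp ((Equiv.refl T).prodCongr (Equiv.mulLeft t))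
    (fun p : T × T => ind A (p.1 * x * p.2) * ind A (p.1 * y * p.2))]
  apply Finset.sum_congr rfl
  intro p _
  simp [mul_assoc]

/-- the product of the two matrices is constant -/
theorem NN_mul (A B : Finset T)
    (htile : ∀ s t : T, (A.filter (fun a => s * a * t ∈ B)).card = 1) (x y : T) :
    ∑ u : T, NN A x u * NN B u y = (Fintype.card T * A.card) * (Fintype.card T * B.card) := by
  have hin : ∀ p p' : T × T, ∑ u : T, ind A (p.1 * u * p.2) * ind B (p'.1 * u * p'.2) = 1 := by
    intro p p'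
    have h1 : ∑ u : T, ind A (p.1 * u * p.2) * ind B (p'.1 * u * p'.2) =
        ∑ v : T, ind A v * ind B (p'.1 * p.1⁻¹ * v * (p.2⁻¹ * p'.2)) := by
      rw [← Equiv.sum_comp ((Equiv.mulLeft p.1).trans (Equiv.mulRight p.2))
        (fun v => ind A v * ind B (p'.1 * p.1⁻¹ * v * (p.2⁻¹ * p'.2)))]
      apply Finset.sum_congr rfl
      intro u _
      have e1 : ((Equiv.mulLeft p.1).trans (Equiv.mulRight p.2)) u = p.1 * u * p.2 := rfl
      rw [e1]
      have e2 : p'.1 * p.1⁻¹ * (p.1 * u * p.2) * (p.2⁻¹ * p'.2) = p'.1 * u * p'.2 := by group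
      rw [e2]
    rw [h1, ← htile (p'.1 * p.1⁻¹) (p.2⁻¹ * p'.2), Finset.card_filter,
      ← Finset.sum_filter_add_sum_filter_not univ (fun v => v ∈ A)]
    have h2 : ∑ v ∈ univ.filter (fun v => v ∉ A),
        ind A v * ind B (p'.1 * p.1⁻¹ * v * (p.2⁻¹ * p'.2)) = 0 := by
      apply Finset.sum_eq_zero
      intro v hv
      have hv' : v ∉ A := (mem_filter.1 hv).2
      simp [ind, hv']
    rw [h2, add_zero]
    have h3 : univ.filter (fun v => v ∈ A) = A := by ext v; simp
    rw [h3]
    apply Finset.sum_congr rfl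
    intro v hv
    simp [ind, hv]
  unfold NN
  simp only [Finset.sum_mul_sum]
  rw [Finset.sum_comm]
  have h4 : ∀ p : T × T, ∑ u : T, ∑ p' : T × T,
      ind A (p.1 * x * p.2) * ind A (p.1 * u * p.2) *
        (ind B (p'.1 * u * p'.2) * ind B (p'.1 * y * p'.2)) =
      ind A (p.1 * x * p.2) * (Fintype.card T * B.card) := by
    intro p
    rw [Finset.sum_comm]
    have h5 : ∀ p' : T × T, ∑ u : T, ind A (p.1 * x * p.2) * ind A (p.1 * u * p.2) *
        (ind B (p'.1 * u * p'.2) * ind B (p'.1 * y * p'.2)) =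
        ind A (p.1 * x * p.2) * ind B (p'.1 * y * p'.2) := by
      intro p'
      have h6 : ∀ u : T, ind A (p.1 * x * p.2) * ind A (p.1 * u * p.2) *
        (ind B (p'.1 * u * p'.2) * ind B (p'.1 * y * p'.2)) =
        (ind A (p.1 * x * p.2) * ind B (p'.1 * y * p'.2)) *
          (ind A (p.1 * u * p.2) * ind B (p'.1 * u * p'.2)) := by
        intro u; ring
      simp only [h6]
      rw [← Finset.mul_sum, hin, mul_one]
    simp only [h5]
    rw [← Finset.mul_sum, sum_pair]
  simp only [h4]
  rw [← Finset.sum_mul, sum_pair]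

/-- Power maps do not create coincidences between the quotients of the two factors. -/
theorem tile_power (A B : Finset T) (hAB : A.card * B.card = Fintype.card T)
    (htile : ∀ s t : T, (A.filter (fun a => s * a * t ∈ B)).card = 1) (m : ℕ)
    (hm : m.Coprime (Fintype.card T)) (a : T) (ha : a ∈ A) (a' : T) (ha' : a' ∈ A) (hne : a ≠ a')
    (b : T) (hb : b ∈ B) (b' : T) (hb' : b' ∈ B) : (a * a'⁻¹) ^ m ≠ b * b'⁻¹ := by
  intro heq
  have hn : Fintype.card T ≠ 0 := Fintype.card_ne_zero
  set LHS : ℕ := ∑ w : T, NN A 1 w * NN B 1 (w ^ m) with hLHS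
  set c : ℕ := (Fintype.card T * A.card) * (Fintype.card T * B.card) with hc
  obtain ⟨q, hqgt, hqp, hqm⟩ := Nat.forall_exists_prime_gt_and_modEq
    (LHS + c + Fintype.card T) hn hm
  have hfact : Fact q.Prime := ⟨hqp⟩
  have hqn : ¬ q ∣ Fintype.card T := by
    intro hd
    have := Nat.le_of_dvd (Nat.pos_of_ne_zero hn) hd
    omega
  have hco : (Nat.card T).Coprime q := by
    rw [Nat.card_eq_fintype_card]
    exact ((Nat.Prime.coprime_iff_not_dvd hqp).2 hqn).symm
  have hpow : ∀ w : T, w ^ q = w ^ m := by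
    intro w
    have h1 : q % Nat.card T = m % Nat.card T := by
      rw [Nat.card_eq_fintype_card]; exact hqm
    rw [← pow_mod_natCard w q, h1, pow_mod_natCard]
  let α : Matrix T T (ZMod q) := Matrix.of fun x y => (NN A x y : ZMod q)
  let β : Matrix T T (ZMod q) := Matrix.of fun x y => (NN B x y : ZMod q)
  let J : Matrix T T (ZMod q) := Matrix.of fun _ _ => 1
  have hαb : BiInv α := by
    constructor
    · intro s x y
      show (NN A (s * x) (s * y) : ZMod q) = NN A x y
      rw [NN_left]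
    · intro t x y
      show (NN A (x * t) (y * t) : ZMod q) = NN A x y
      rw [NN_right]
  have h1 : α * β = (c : ZMod q) • J := by
    ext x y
    rw [Matrix.mul_apply]
    show ∑ u : T, (NN A x u : ZMod q) * (NN B u y : ZMod q) = (c : ZMod q) * 1
    rw [mul_one, hc, ← NN_mul A B htile x y, Nat.cast_sum]
    simp only [Nat.cast_mul]
  have h2 : α * J = ((Fintype.card T * A.card * A.card : ℕ) : ZMod q) • J := by
    ext x y
    rw [Matrix.mul_apply]
    show ∑ u : T, (NN A x u : ZMod q) * 1 = ((Fintype.card T * A.card * A.card : ℕ) : ZMod q) * 1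
    simp only [mul_one]
    rw [← NN_row A x, Nat.cast_sum]
  have h3 : ∀ k : ℕ, α ^ k * J = (((Fintype.card T * A.card * A.card : ℕ) : ZMod q) ^ k) • J := by
    intro k
    induction k with
    | zero => simp
    | succ k ih => rw [pow_succ, mul_assoc, h2, Matrix.mul_smul, ih, smul_smul, pow_succ, mul_comm]
  have hd : ((Fintype.card T * A.card * A.card : ℕ) : ZMod q) ≠ 0 := by
    intro h
    rw [ZMod.natCast_eq_zero_iff] at h
    have hA : ¬ q ∣ A.card := fun h' => hqn (hAB ▸ Dvd.dvd.mul_right h' _)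
    rcases (Nat.Prime.dvd_mul hqp).1 h with h' | h'
    · rcases (Nat.Prime.dvd_mul hqp).1 h' with h'' | h''
      · exact hqn h''
      · exact hA h''
    · exact hA h'
  have h4 : α ^ q * β = (c : ZMod q) • J := by
    have hq1 : (q - 1) + 1 = q := by have := hqp.one_lt; omega
    have h5 : α ^ q * β = α ^ (q - 1) * (α * β) := by
      rw [← mul_assoc, ← pow_succ, hq1]
    rw [h5, h1, Matrix.mul_smul, h3, ZMod.pow_card_sub_one_eq_one hd, one_smul]
  have h6 : ((LHS : ℕ) : ZMod q) = (c : ZMod q) := by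
    have h7 := congrArg (fun M : Matrix T T (ZMod q) => M 1 1) h4
    have h8 : (α ^ q * β) 1 1 = (c : ZMod q) := by
      rw [h4]
      show (c : ZMod q) * 1 = c
      rw [mul_one]
    rw [Matrix.mul_apply, ← Equiv.sum_comp (powCoprime hco)] at h8
    rw [← h8, hLHS, Nat.cast_sum]
    apply Finset.sum_congr rfl
    intro w _
    have e1 : (powCoprime hco) w = w ^ q := rfl
    rw [e1, pow_apply_pow q hqn hαb w, hpow]
    show ((NN A 1 w * NN B 1 (w ^ m) : ℕ) : ZMod q) = (NN A 1 w : ZMod q) * (NN B (w ^ m) 1 : ZMod q)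
    rw [NN_symm B (w ^ m) 1, Nat.cast_mul]
  have h9 : LHS = c := by
    rw [ZMod.natCast_eq_natCast_iff] at h6
    have e1 : LHS % q = LHS := Nat.mod_eq_of_lt (by omega)
    have e2 : c % q = c := Nat.mod_eq_of_lt (by omega)
    have h7 : LHS % q = c % q := h6
    rw [e1, e2] at h7
    exact h7
  -- the constant is the contribution of the identity
  have h10 : NN A 1 1 * NN B 1 1 = c := by
    rw [hc, ← NN_mul A B htile 1 1, Finset.sum_eq_single 1]
    · intro u _ hu
      rw [NN_symm B u 1]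
      by_contra hcon
      obtain ⟨hA1, hB1⟩ := ne_zero_and_ne_zero_of_mul hcon
      obtain ⟨s, t, hs1, hs2⟩ := exists_of_NN_ne_zero hA1
      obtain ⟨s', t', hs1', hs2'⟩ := exists_of_NN_ne_zero hB1
      obtain ⟨z, hz⟩ := Finset.card_eq_one.1 (htile (s' * s⁻¹) (t⁻¹ * t'))
      have m1 : s * 1 * t ∈ A.filter (fun a => s' * s⁻¹ * a * (t⁻¹ * t') ∈ B) := by
        refine mem_filter.2 ⟨hs1, ?_⟩
        have : s' * s⁻¹ * (s * 1 * t) * (t⁻¹ * t') = s' * 1 * t' := by group
        rw [this]; exact hs1'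
      have m2 : s * u * t ∈ A.filter (fun a => s' * s⁻¹ * a * (t⁻¹ * t') ∈ B) := by
        refine mem_filter.2 ⟨hs2, ?_⟩
        have : s' * s⁻¹ * (s * u * t) * (t⁻¹ * t') = s' * u * t' := by group
        rw [this]; exact hs2'
      rw [hz, mem_singleton] at m1 m2
      have m3 : s * 1 * t = s * u * t := m1.trans m2.symm
      exact hu (mul_left_cancel (mul_right_cancel m3)).symm
    · intro h
      exact absurd (mem_univ _) h
  -- contribution of `a * a'⁻¹`
  have hw1 : a * a'⁻¹ ≠ 1 := by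
    intro h
    exact hne (mul_inv_eq_one.1 h)
  have hposA : 0 < NN A 1 (a * a'⁻¹) := NN_pos 1 a' (by simpa using ha') (by simpa using ha)
  have hposB : 0 < NN B 1 ((a * a'⁻¹) ^ m) := by
    rw [heq]
    exact NN_pos 1 b' (by simpa using hb') (by simpa using hb)
  have h11 : NN A 1 1 * NN B 1 (1 ^ m) + NN A 1 (a * a'⁻¹) * NN B 1 ((a * a'⁻¹) ^ m) ≤ LHS := by
    rw [hLHS, ← Finset.sum_pair (f := fun w => NN A 1 w * NN B 1 (w ^ m)) hw1.symm]
    exact Finset.sum_le_sum_of_subset (subset_univ _)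
  rw [one_pow, h10, h9] at h11
  have h12 : 0 < NN A 1 (a * a'⁻¹) * NN B 1 ((a * a'⁻¹) ^ m) := Nat.mul_pos hposA hposB
  omega

end Pool.Agent.SyncPerm
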