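import Pool.Agent.Lib.MP_288833_lc.DiagB

/-!
Invariant graphs witnessing that a group is not synchronizing, closed under power maps.
-/

namespace Pool.Agent.SyncPerm

open Finset

/-- A section for a section-regular map. -/
theorem exists_section {Ω : Type*} [Finite Ω] (G : Subgroup (Equiv.Perm Ω)) (r : ℕ)
    (h : HasMinRank G r) :
    ∃ (e : Ω → Ω) (A : Finset Ω), (∀ x, e x ∈ A) ∧ A.card = r ∧ r < Nat.card Ω ∧
      ∀ g ∈ G, ∀ a ∈ A, ∀ a' ∈ A, e (g a) = e (g a') → a = a' := by
  classical
  have := Fintype.ofFinite Ω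
  obtain ⟨f, hf, hmin, e, heM, hre⟩ := h
  refine ⟨e, univ.image e, fun x => mem_image_of_mem _ (mem_univ x), ?_, ?_, ?_⟩
  · rw [← ncard_range_eq, hre]
  · have h1 : r ≤ (univ.image f).card := by
      rw [← ncard_range_eq]
      exact hmin f (mem_gen_f G f)
    refine lt_of_le_of_ne ?_ ?_
    · calc r ≤ (univ.image f).card := h1
        _ ≤ (univ : Finset Ω).card := card_image_le
        _ = Nat.card Ω := by rw [Finset.card_univ, Nat.card_eq_fintype_card]
    · intro hr
      apply hf
      apply Finite.injective_iff_bijective.1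
      have h2 : (univ.image f).card = (univ : Finset Ω).card := by
        apply le_antisymm card_image_le
        rw [Finset.card_univ, ← Nat.card_eq_fintype_card, ← hr]
        exact h1
      have h3 := Finset.card_image_iff.1 h2
      intro x y hxy
      exact h3 (mem_coe.2 (mem_univ _)) (mem_coe.2 (mem_univ _)) hxy
  · intro g hg a ha a' ha' haa
    by_contra hne
    let k : Ω → Ω := fun x => e (g (e x))
    have hkM : (k : Function.End Ω) ∈ genMonoid G f :=
      comp_mem_gen G f e _ heM (comp_mem_gen G f g e (mem_gen_g G f g hg) heM)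
    have h1 : (univ.image e).card ≤ (univ.image k).card := by
      rw [← ncard_range_eq, ← ncard_range_eq, hre]
      exact hmin k hkM
    have h2 : univ.image k = (univ.image e).image (fun x => e (g x)) := by
      rw [Finset.image_image]
      rfl
    have h3 : ((univ.image e).image (fun x => e (g x))).card < (univ.image e).card := by
      refine lt_of_le_of_ne card_image_le ?_
      intro heq
      exact hne (Finset.card_image_iff.1 heq ha ha' haa)
    rw [h2] at h1
    omega

/-- An invariant graph with equal clique number and chromatic number `r`, `2 ≤ r < n`, gives a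
section-regular map of rank `r`. -/
theorem hasMinRank_of_graph {Ω : Type*} [Finite Ω] (G : Subgroup (Equiv.Perm Ω)) (r : ℕ)
    (Γ : SimpleGraph Ω) (hΓ : ∀ g ∈ G, ∀ x y, Γ.Adj x y → Γ.Adj (g x) (g y)) (hne : Γ ≠ ⊤)
    (s : Finset Ω) (hs : Γ.IsNClique r s) (hc : Γ.Colorable r) : HasMinRank G r := by
  classical
  have := Fintype.ofFinite Ω
  obtain ⟨C⟩ := hc
  have hcl : ∀ a ∈ s, ∀ a' ∈ s, a ≠ a' → Γ.Adj a a' := by
    intro a ha a' ha' h
    exact hs.isClique ha ha' h
  have hCinj : Set.InjOn C (s : Set Ω) := by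
    intro a ha a' ha' h
    by_contra hne'
    exact C.valid (hcl a ha a' ha' hne') h
  have himg : s.image C = univ := by
    apply Finset.eq_univ_of_card
    rw [Finset.card_image_of_injOn hCinj, hs.card_eq, Fintype.card_fin]
  have hex : ∀ x : Ω, ∃ a ∈ s, C a = C x := by
    intro x
    have : C x ∈ s.image C := by rw [himg]; exact mem_univ _
    obtain ⟨a, ha, hax⟩ := mem_image.1 this
    exact ⟨a, ha, hax⟩
  choose α hα hCα using hex
  have hrange : univ.image α = s := by
    apply Finset.Subset.antisymm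
    · intro y hy
      obtain ⟨x, -, rfl⟩ := mem_image.1 hy
      exact hα x
    · intro a ha
      exact mem_image.2 ⟨a, mem_univ _, hCinj (hα a) ha (hCα a)⟩
  have hnb : ¬ Function.Bijective α := by
    intro hb
    apply hne
    have h1 : s = univ := by
      rw [← hrange]
      exact Finset.image_univ_of_surjective hb.2
    ext x y
    rw [SimpleGraph.top_adj]
    constructor
    · intro h; exact h.ne
    · intro h
      exact hcl x (by rw [h1]; exact mem_univ _) y (by rw [h1]; exact mem_univ _) h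
  have hend : ∀ k ∈ genMonoid G α, ∀ x y, Γ.Adj x y → Γ.Adj (k x) (k y) := by
    intro k hk
    induction hk using Submonoid.closure_induction with
    | mem k hk =>
      rcases hk with hk | ⟨g, hg, rfl⟩
      · have hk' : k = α := hk
        intro x y hxy
        rw [hk']
        apply hcl _ (hα x) _ (hα y)
        intro heq
        apply C.valid hxy
        rw [← hCα x, ← hCα y, heq]
      · exact hΓ g hg
    | one => intro x y hxy; exact hxy
    | mul u v _ _ hu hv =>
      intro x y hxy
      exact hu _ _ (hv _ _ hxy)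
  refine ⟨α, hnb, ?_, α, mem_gen_f G α, ?_⟩
  · intro h hh
    have h1 : (s.image h).card = s.card := by
      apply Finset.card_image_of_injOn
      intro a ha a' ha' heq
      by_contra hne'
      exact (hend h hh a a' (hcl a ha a' ha' hne')).ne heq
    rw [← hs.card_eq, ← h1, ncard_range_eq]
    exact card_le_card (Finset.image_subset_image (subset_univ _))
  · rw [ncard_range_eq, hrange, hs.card_eq]

variable {T : Type*} [Group T] [Finite T]

/-- Rational witness. -/
theorem exists_rational_graph (G : Subgroup (Equiv.Perm T)) (hL : ∀ s : T, Equiv.mulLeft s ∈ G)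
    (hR : ∀ t : T, Equiv.mulRight t ∈ G) (r : ℕ) (h : HasMinRank G r) :
    ∃ Γ : SimpleGraph T, Γ ≠ ⊤ ∧ (∀ g ∈ G, ∀ x y, Γ.Adj x y → Γ.Adj (g x) (g y)) ∧
      (∀ m : ℕ, m.Coprime (Nat.card T) → ∀ x : T, Γ.Adj 1 x → Γ.Adj 1 (x ^ m)) ∧
      (∃ s : Finset T, Γ.IsNClique r s) ∧ Γ.Colorable r := by
  classical
  have := Fintype.ofFinite T
  have hcard : Nat.card T = Fintype.card T := Nat.card_eq_fintype_card
  obtain ⟨e, A, heA, hAr, hrn, hinj⟩ := exists_section G r h
  -- the connection set of the closure of the clique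
  let S0 : Set T := {z | ∃ g ∈ G, ∃ a ∈ A, ∃ a' ∈ A, a ≠ a' ∧ z = g a * (g a')⁻¹}
  have hS0f : ∀ k ∈ G, ∀ x y : T, y * x⁻¹ ∈ S0 → k y * (k x)⁻¹ ∈ S0 := by
    rintro k hk x y ⟨g, hg, a, ha, a', ha', hne, hxy⟩
    refine ⟨k * (Equiv.mulRight ((g a')⁻¹ * x) * g), G.mul_mem hk (G.mul_mem (hR _) hg),
      a, ha, a', ha', hne, ?_⟩
    show k y * (k x)⁻¹ = k (g a * ((g a')⁻¹ * x)) * (k (g a' * ((g a')⁻¹ * x)))⁻¹
    have e1 : g a * ((g a')⁻¹ * x) = y := by
      rw [← mul_assoc, ← hxy]; group
    have e2 : g a' * ((g a')⁻¹ * x) = x := by group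
    rw [e1, e2]
  have hS0 : ∀ k ∈ G, ∀ x y : T, y * x⁻¹ ∈ S0 ↔ k y * (k x)⁻¹ ∈ S0 := by
    intro k hk x y
    refine ⟨hS0f k hk x y, ?_⟩
    intro hxy
    have := hS0f k⁻¹ (G.inv_mem hk) _ _ hxy
    have e1 : ∀ z, k⁻¹ (k z) = z := fun z => k.symm_apply_apply z
    rwa [e1, e1] at this
  have hpow : ∀ m : ℕ, m.Coprime (Nat.card T) → ∀ k ∈ G, ∀ x y : T,
      y * x⁻¹ ∈ {z : T | ∃ s ∈ S0, z = s ^ m} ↔ k y * (k x)⁻¹ ∈ {z : T | ∃ s ∈ S0, z = s ^ m} := by
    intro m hm
    have hn : Fintype.card T ≠ 0 := Fintype.card_ne_zero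
    obtain ⟨q, hqgt, hqp, hqm⟩ := Nat.forall_exists_prime_gt_and_modEq
      (Fintype.card T) hn (hcard ▸ hm)
    have hqn : ¬ q ∣ Fintype.card T := by
      intro hd
      have := Nat.le_of_dvd (Nat.pos_of_ne_zero hn) hd
      omega
    have hpq : ∀ w : T, w ^ q = w ^ m := by
      intro w
      have h1 : q % Nat.card T = m % Nat.card T := by
        rw [hcard]; exact hqm
      rw [← pow_mod_natCard w q, h1, pow_mod_natCard]
    have h1 := schur_diag G hL hR q hqp hqn S0 hS0
    simp only [hpq] at h1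
    exact h1
  let S : Set T := {z | ∃ m : ℕ, m.Coprime (Nat.card T) ∧ ∃ s ∈ S0, z = s ^ m}
  have hS : ∀ k ∈ G, ∀ x y : T, y * x⁻¹ ∈ S → k y * (k x)⁻¹ ∈ S := by
    rintro k hk x y ⟨m, hm, hz⟩
    exact ⟨m, hm, (hpow m hm k hk x y).1 hz⟩
  have hSinv : ∀ z, z ∈ S → z⁻¹ ∈ S := by
    rintro z ⟨m, hm, s, ⟨g, hg, a, ha, a', ha', hne, rfl⟩, rfl⟩
    refine ⟨m, hm, g a' * (g a)⁻¹, ⟨g, hg, a', ha', a, ha, hne.symm, rfl⟩, ?_⟩
    rw [← inv_pow, mul_inv_rev, inv_inv]
  have hS1 : (1 : T) ∉ S := by
    rintro ⟨m, hm, s, ⟨g, hg, a, ha, a', ha', hne, rfl⟩, h1⟩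
    have h2 : (1 : T) ^ m = (g a * (g a')⁻¹) ^ m := by rw [one_pow]; exact h1
    have h3 : (1 : T) = g a * (g a')⁻¹ := (powCoprime hm.symm).injective h2
    exact hne (g.injective (mul_inv_eq_one.1 h3.symm))
  let Γ : SimpleGraph T :=
    { Adj := fun x y => y * x⁻¹ ∈ S
      symm := ⟨fun x y hxy => by
        have h1 := hSinv _ hxy
        rwa [mul_inv_rev, inv_inv] at h1⟩
      loopless := ⟨fun x hx => by
        rw [mul_inv_cancel] at hx
        exact hS1 hx⟩ }
  have hcol : ∀ x y : T, Γ.Adj x y → e x ≠ e y := by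
    rintro x y ⟨m, hm, s, ⟨g, hg, a, ha, a', ha', hne, rfl⟩, hyx⟩ hexy
    -- the tiling of T by g A and the fibre B of e
    let B : Finset T := univ.filter (fun z => e z = e x)
    let A' : Finset T := A.image g
    have hbij : ∀ k ∈ G, ∀ c ∈ A, ∃ a₀ ∈ A, e (k a₀) = c := by
      intro k hk c hc
      have h1 : A.image (fun a => e (k a)) = A := by
        apply Finset.eq_of_subset_of_card_le
        · intro z hz
          obtain ⟨w, -, rfl⟩ := mem_image.1 hz
          exact heA _
        · rw [Finset.card_image_of_injOn]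
          intro a ha a' ha' haa
          exact hinj k hk a ha a' ha' haa
      rw [← h1] at hc
      obtain ⟨w, hw, hwc⟩ := mem_image.1 hc
      exact ⟨w, hw, hwc⟩
    have htile : ∀ s t : T, (A'.filter (fun z => s * z * t ∈ B)).card = 1 := by
      intro s t
      have hk : Equiv.mulRight t * (Equiv.mulLeft s * g) ∈ G :=
        G.mul_mem (hR t) (G.mul_mem (hL s) hg)
      obtain ⟨a₀, ha₀, hea₀⟩ := hbij _ hk (e x) (heA x)
      have hea₀' : e (s * g a₀ * t) = e x := hea₀
      rw [Finset.card_eq_one]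
      refine ⟨g a₀, ?_⟩
      ext z
      rw [mem_filter, mem_singleton]
      constructor
      · rintro ⟨hz, hzB⟩
        obtain ⟨w, hw, rfl⟩ := mem_image.1 hz
        have h2 : e (s * g w * t) = e x := (mem_filter.1 hzB).2
        have h3 : w = a₀ := hinj _ hk w hw a₀ ha₀ (h2.trans hea₀'.symm)
        rw [h3]
      · rintro rfl
        exact ⟨mem_image_of_mem _ ha₀, mem_filter.2 ⟨mem_univ _, hea₀'⟩⟩
    have hcount : A'.card * B.card = Fintype.card T := by
      -- double count pairs (s, z) with z in A' and s z in B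
      have h1 : ∑ s : T, (A'.filter (fun z => s * z ∈ B)).card = Fintype.card T := by
        have : ∀ s : T, (A'.filter (fun z => s * z ∈ B)).card = 1 := by
          intro s
          have := htile s 1
          simpa using this
        simp only [this]
        simp
      have h2 : ∑ s : T, (A'.filter (fun z => s * z ∈ B)).card = A'.card * B.card := by
        simp only [Finset.card_filter]
        rw [Finset.sum_comm]
        have : ∀ z ∈ A', (∑ s : T, if s * z ∈ B then 1 else 0) = B.card := by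
          intro z _
          have h3 := Equiv.sum_comp (Equiv.mulRight z) (fun v => if v ∈ B then 1 else 0)
          have h4 : (∑ s : T, if s * z ∈ B then 1 else 0) = ∑ v : T, if v ∈ B then 1 else 0 := h3
          rw [h4]
          simp
        rw [Finset.sum_congr rfl this, Finset.sum_const, smul_eq_mul]
      rw [← h2, h1]
    have hm' : m.Coprime (Fintype.card T) := hcard ▸ hm
    exact tile_power A' B hcount htile m hm' (g a) (mem_image_of_mem _ ha) (g a')
      (mem_image_of_mem _ ha') (fun h => hne (g.injective h)) y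
      (mem_filter.2 ⟨mem_univ _, hexy.symm⟩) x (mem_filter.2 ⟨mem_univ _, rfl⟩) hyx.symm
  have hclq : Γ.IsNClique r A := by
    refine ⟨?_, hAr⟩
    intro a ha a' ha' hne
    show a' * a⁻¹ ∈ S
    exact ⟨1, Nat.coprime_one_left _, a' * a⁻¹,
      ⟨1, G.one_mem, a', ha', a, ha, hne.symm, rfl⟩, (pow_one _).symm⟩
  have hcolr : Γ.Colorable r := by
    have C : Γ.Coloring A := SimpleGraph.Coloring.mk (fun x => (⟨e x, heA x⟩ : A))
      (fun {x y} hxy heq => hcol x y hxy (congrArg Subtype.val heq))
    have h1 := C.colorable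
    rwa [Fintype.card_coe, hAr] at h1
  refine ⟨Γ, ?_, ?_, ?_, ⟨A, hclq⟩, hcolr⟩
  · intro htop
    have h1 : Γ.IsNClique (Fintype.card T) univ := by
      refine ⟨?_, Finset.card_univ⟩
      intro x _ y _ hxy
      rw [htop]
      exact hxy
    have h2 := h1.isClique.card_le_of_colorable hcolr
    rw [Finset.card_univ, ← hcard] at h2
    omega
  · intro g hg x y hxy
    exact hS g hg x y hxy
  · rintro m hm x ⟨k, hk, s, hs, hx⟩
    refine ⟨k * m, Nat.Coprime.mul_left hk hm, s, hs, ?_⟩
    rw [inv_one, mul_one] at hx ⊢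
    rw [hx, ← pow_mul]

end Pool.Agent.SyncPerm
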