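import Pool.Agent.Lib.MP_288833_lc.Rational

/-!
Groups containing the translations of a vector space over a prime field.
-/

namespace Pool.Agent.SyncPerm

open Finset

variable {p : ℕ} [Fact p.Prime] {V : Type*} [AddCommGroup V] [Module (ZMod p) V]

/-- Fibres of a nonzero linear functional. -/
theorem fiber_card [Fintype V] (φ : V →ₗ[ZMod p] ZMod p) (hφ : φ ≠ 0) (c : ZMod p) :
    p * (univ.filter (fun y => φ y = c)).card = Fintype.card V := by
  classical
  have hsurj : Function.Surjective φ := LinearMap.surjective hφ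
  have h1 : ∀ c' : ZMod p, (univ.filter (fun y => φ y = c')).card =
      (univ.filter (fun y => φ y = c)).card := by
    intro c'
    exact AddMonoidHom.card_fiber_eq_of_mem_range φ.toAddMonoidHom (hsurj c') (hsurj c)
  have h2 : (univ : Finset V).card = ∑ c' : ZMod p, (univ.filter (fun y => φ y = c')).card :=
    Finset.card_eq_sum_card_fiberwise (fun x _ => mem_coe.2 (mem_univ _))
  rw [Finset.sum_congr rfl (fun c' _ => h1 c'), Finset.sum_const, smul_eq_mul,
    Finset.card_univ, Finset.card_univ, ZMod.card] at h2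
  exact h2.symm

/-- The scalar permutation. -/
theorem smul_mem_withMultipliers (G : Subgroup (Equiv.Perm V)) (u : ZMod p) (hu : u ≠ 0) :
    ∃ σ ∈ withMultipliers G, ∀ x : V, σ x = u • x := by
  let σ : Equiv.Perm V :=
    { toFun := fun x => u • x
      invFun := fun x => u⁻¹ • x
      left_inv := fun x => by
        show u⁻¹ • (u • x) = x
        rw [smul_smul, inv_mul_cancel₀ hu, one_smul]
      right_inv := fun x => by
        show u • (u⁻¹ • x) = x
        rw [smul_smul, mul_inv_cancel₀ hu, one_smul] }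
  refine ⟨σ, Subgroup.subset_closure (Or.inr ⟨u.val, ?_⟩), fun x => rfl⟩
  intro x
  show u • x = u.val • x
  rw [← Nat.cast_smul_eq_nsmul (ZMod p), ZMod.natCast_zmod_val]

/-- A coclique of size `|V| / p` forces a hyperplane missing the difference set. -/
theorem exists_hyperplane [Finite V] (T : Set V) (h0 : (0 : V) ∉ T)
    (hTs : ∀ u : ZMod p, u ≠ 0 → ∀ z ∈ T, u • z ∈ T) (B : Finset V)
    (hB : p * B.card = Nat.card V) (hco : ∀ b ∈ B, ∀ b' ∈ B, b - b' ∉ T) :
    ∃ w : V →ₗ[ZMod p] ZMod p, w ≠ 0 ∧ ∀ t ∈ T, w t ≠ 0 := by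
  classical
  have := Fintype.ofFinite V
  by_contra hcon
  push Not at hcon
  have hp : 1 < p := (Fact.out : p.Prime).one_lt
  have hfinD : Finite (V →ₗ[ZMod p] ZMod p) :=
    Finite.of_injective (fun f => (f : V → ZMod p)) DFunLike.coe_injective
  have := Fintype.ofFinite (V →ₗ[ZMod p] ZMod p)
  have hcardV : Nat.card V = Fintype.card V := Nat.card_eq_fintype_card
  have hVpos : 0 < Fintype.card V := Fintype.card_pos
  have hBpos : 0 < B.card := by
    rcases Nat.eq_zero_or_pos B.card with h | h
    · rw [h, mul_zero, hcardV] at hB; omega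
    · exact h
  -- an element outside B
  obtain ⟨x, hx⟩ : ∃ x, x ∉ B := by
    by_contra hall
    push Not at hall
    have : B = univ := Finset.eq_univ_iff_forall.2 hall
    rw [this, Finset.card_univ, hcardV] at hB
    nlinarith
  -- equidistribution
  have hN : ∀ w : V →ₗ[ZMod p] ZMod p, w ≠ 0 →
      p * (B.filter (fun b => w b = w x)).card = B.card := by
    intro w hw
    obtain ⟨t, htT, hwt⟩ := hcon w hw
    let φ : ZMod p × V → V := fun z => z.1 • t + z.2
    have hinj : Set.InjOn φ ((univ : Finset (ZMod p)) ×ˢ B : Finset (ZMod p × V)) := by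
      rintro ⟨k, b⟩ hkb ⟨k', b'⟩ hkb' heq
      rw [mem_coe, mem_product] at hkb hkb'
      have heq' : k • t + b = k' • t + b' := heq
      have h1 : k = k' := by
        by_contra hne
        have h2 : (k - k') • t = b' - b := by
          rw [sub_smul, sub_eq_sub_iff_add_eq_add, heq']; abel
        exact hco b' hkb'.2 b hkb.2 (h2 ▸ hTs (k - k') (sub_ne_zero.2 hne) t htT)
      subst h1
      rw [add_left_cancel heq']
    have himg : ((univ : Finset (ZMod p)) ×ˢ B).image φ = univ := by
      apply Finset.eq_univ_of_card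
      rw [Finset.card_image_of_injOn hinj, Finset.card_product, Finset.card_univ, ZMod.card, hB,
        hcardV]
    have h3 : (univ.filter (fun y => w y = w x)) =
        ((univ : Finset (ZMod p)) ×ˢ (B.filter (fun b => w b = w x))).image φ := by
      ext y
      constructor
      · intro hy
        have hy1 : y ∈ ((univ : Finset (ZMod p)) ×ˢ B).image φ := by rw [himg]; exact mem_univ _
        obtain ⟨⟨k, b⟩, hkb, rfl⟩ := mem_image.1 hy1
        refine mem_image.2 ⟨(k, b), mem_product.2 ⟨mem_univ _, mem_filter.2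
          ⟨(mem_product.1 hkb).2, ?_⟩⟩, rfl⟩
        have h4 : w (k • t + b) = w x := (mem_filter.1 hy).2
        rw [map_add, map_smul, hwt, smul_zero, zero_add] at h4
        exact h4
      · intro hy
        obtain ⟨⟨k, b⟩, hkb, rfl⟩ := mem_image.1 hy
        refine mem_filter.2 ⟨mem_univ _, ?_⟩
        have h4 : w b = w x := (mem_filter.1 (mem_product.1 hkb).2).2
        show w (k • t + b) = w x
        rw [map_add, map_smul, hwt, smul_zero, zero_add, h4]
    have h5 : (univ.filter (fun y => w y = w x)).card =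
        p * (B.filter (fun b => w b = w x)).card := by
      rw [h3, Finset.card_image_of_injOn, Finset.card_product, Finset.card_univ, ZMod.card]
      apply hinj.mono
      intro z hz
      rw [mem_coe, mem_product] at hz ⊢
      exact ⟨hz.1, (mem_filter.1 hz.2).1⟩
    have h6 := fiber_card w hw (w x)
    rw [h5, ← hcardV, ← hB] at h6
    exact Nat.eq_of_mul_eq_mul_left (by omega) h6
  -- double count
  have hD : ∀ b ∈ B, p * ((univ : Finset (V →ₗ[ZMod p] ZMod p)).filter
      (fun w => w b = w x)).card = Fintype.card (V →ₗ[ZMod p] ZMod p) := by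
    intro b hb
    have hne : b - x ≠ 0 := by
      intro h
      rw [sub_eq_zero] at h
      exact hx (h ▸ hb)
    let ev : (V →ₗ[ZMod p] ZMod p) →ₗ[ZMod p] ZMod p :=
      { toFun := fun w => w (b - x)
        map_add' := fun w w' => rfl
        map_smul' := fun c w => rfl }
    have hev : ev ≠ 0 := by
      intro h
      apply hne
      rw [← Module.forall_dual_apply_eq_zero_iff (ZMod p) (b - x)]
      intro w
      exact congrArg (fun e : (V →ₗ[ZMod p] ZMod p) →ₗ[ZMod p] ZMod p => e w) h
    have h7 := fiber_card (V := V →ₗ[ZMod p] ZMod p) ev hev 0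
    rw [← h7]
    congr 2
    ext w
    simp only [mem_filter, mem_univ, true_and]
    show w b = w x ↔ w (b - x) = 0
    rw [map_sub, sub_eq_zero]
  have hsum : ∑ w : V →ₗ[ZMod p] ZMod p, p * (B.filter (fun b => w b = w x)).card =
      ∑ b ∈ B, p * ((univ : Finset (V →ₗ[ZMod p] ZMod p)).filter (fun w => w b = w x)).card := by
    rw [← Finset.mul_sum, ← Finset.mul_sum]
    congr 1
    simp only [Finset.card_filter]
    rw [Finset.sum_comm]
  rw [Finset.sum_congr rfl hD, Finset.sum_const, smul_eq_mul,
    ← Finset.add_sum_erase univ _ (mem_univ (0 : V →ₗ[ZMod p] ZMod p))] at hsum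
  have h8 : ∑ w ∈ (univ : Finset (V →ₗ[ZMod p] ZMod p)).erase 0,
      p * (B.filter (fun b => w b = w x)).card =
      ∑ w ∈ (univ : Finset (V →ₗ[ZMod p] ZMod p)).erase 0, B.card :=
    Finset.sum_congr rfl (fun w hw => hN w (Finset.ne_of_mem_erase hw))
  rw [h8, Finset.sum_const, smul_eq_mul, Finset.card_erase_of_mem (mem_univ _),
    Finset.card_univ] at hsum
  have h9 : (B.filter (fun b => (0 : V →ₗ[ZMod p] ZMod p) b = (0 : V →ₗ[ZMod p] ZMod p) x)) = B := by
    apply Finset.filter_true_of_mem
    intro b _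
    rfl
  rw [h9] at hsum
  have hDpos : 0 < Fintype.card (V →ₗ[ZMod p] ZMod p) := Fintype.card_pos
  obtain ⟨k, hk⟩ : ∃ k, Fintype.card (V →ₗ[ZMod p] ZMod p) = k + 1 := ⟨_, (Nat.succ_pred_eq_of_pos hDpos).symm⟩
  rw [hk] at hsum
  simp only [Nat.add_sub_cancel] at hsum
  nlinarith

end Pool.Agent.SyncPerm
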