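import Pool.Agent.Lib.MP_288833_lc.Ring

/-!
The multiplier theorem for synchronizing groups containing a regular abelian subgroup.
-/

namespace Pool.Agent.SyncPerm

open Finset

variable {R : Type*} [AddCommGroup R] [Finite R]

/-- A permutation of the form `x ↦ m • x` has `m` coprime to the order. -/
theorem coprime_of_perm (σ : Equiv.Perm R) (m : ℕ) (h : ∀ x, σ x = m • x) :
    (Nat.card R).Coprime m := by
  by_contra hc
  obtain ⟨q, hq, hq1, hq2⟩ := Nat.Prime.not_coprime_iff_dvd.1 hc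
  have : Fact q.Prime := ⟨hq⟩
  obtain ⟨x, hx⟩ := exists_prime_addOrderOf_dvd_card' (G := R) q hq1
  have h1 : q • x = 0 := by rw [← hx]; exact addOrderOf_nsmul_eq_zero x
  have h2 : m • x = 0 := by
    obtain ⟨k, rfl⟩ := hq2
    rw [mul_comm, mul_smul, h1, smul_zero]
  have h3 : σ x = σ 0 := by rw [h, h, h2, smul_zero]
  have h4 : x = 0 := σ.injective h3
  rw [h4, addOrderOf_zero] at hx
  exact hq.one_lt.ne hx

/-- Inverse multiplier. -/
theorem exists_inv_mult (m : ℕ) (hm : (Nat.card R).Coprime m) :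
    ∃ m' : ℕ, (Nat.card R).Coprime m' ∧ ∀ z : R, m' • (m • z) = z := by
  refine ⟨m ^ (Nat.totient (Nat.card R) - 1), Nat.Coprime.pow_right _ hm, ?_⟩
  intro z
  have hpos : 0 < Nat.card R := Nat.card_pos
  have hphi : 0 < Nat.totient (Nat.card R) := Nat.totient_pos.2 hpos
  rw [smul_smul, ← pow_succ, Nat.sub_add_cancel hphi]
  have h1 : m ^ Nat.totient (Nat.card R) ≡ 1 [MOD Nat.card R] := Nat.ModEq.pow_totient hm.symm
  have h2 : m ^ Nat.totient (Nat.card R) ≡ 1 [MOD addOrderOf z] :=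
    h1.of_dvd (addOrderOf_dvd_natCard z)
  have h3 := nsmul_eq_nsmul_iff_modEq.2 h2
  rw [h3, one_smul]

/-- A section-regular map of rank `r` for a group containing a regular abelian group gives a
difference set, invariant also under all the multipliers, with a clique of size `r` and a coclique
tiling the group. -/
theorem exists_rational (G : Subgroup (Equiv.Perm R)) (hG : ∀ a : R, Equiv.addRight a ∈ G)
    (r : ℕ) (h : HasMinRank G r) :
    ∃ (A B : Finset R) (T : Set R), A.card = r ∧ 2 ≤ B.card ∧ A.card * B.card = Nat.card R ∧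
      (∀ g ∈ withMultipliers G, ∀ x y : R, y - x ∈ T ↔ g y - g x ∈ T) ∧ (0 : R) ∉ T ∧
      (∀ a ∈ A, ∀ a' ∈ A, a ≠ a' → a - a' ∈ T) ∧ (∀ b ∈ B, ∀ b' ∈ B, b - b' ∉ T) := by
  classical
  obtain ⟨A, B, hA, hB, hAB, ht⟩ := exists_tiling G hG r h
  let T0 : Set R := {z | ∃ g ∈ G, ∃ a ∈ A, ∃ a' ∈ A, a ≠ a' ∧ z = g a - g a'}
  have hT0f : ∀ k ∈ G, ∀ x y : R, y - x ∈ T0 → k y - k x ∈ T0 := by
    rintro k hk x y ⟨g, hg, a, ha, a', ha', hne, hxy⟩
    let t : Equiv.Perm R := Equiv.addRight (x - g a')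
    have ht1 : t (g a') = x := by
      show g a' + (x - g a') = x
      abel
    have ht2 : t (g a) = y := by
      show g a + (x - g a') = y
      have : g a + (x - g a') = x + (g a - g a') := by abel
      rw [this, ← hxy]; abel
    refine ⟨k * (t * g), G.mul_mem hk (G.mul_mem (hG _) hg), a, ha, a', ha', hne, ?_⟩
    show k y - k x = k (t (g a)) - k (t (g a'))
    rw [ht1, ht2]
  have hT0 : ∀ k ∈ G, ∀ x y : R, y - x ∈ T0 ↔ k y - k x ∈ T0 := by
    intro k hk x y
    refine ⟨hT0f k hk x y, ?_⟩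
    intro hxy
    have := hT0f k⁻¹ (G.inv_mem hk) _ _ hxy
    have e1 : ∀ z, k⁻¹ (k z) = z := fun z => k.symm_apply_apply z
    rwa [e1, e1] at this
  let T : Set R := {z | ∃ k : ℕ, (Nat.card R).Coprime k ∧ ∃ t ∈ T0, z = k • t}
  have hTG : ∀ k ∈ G, ∀ x y : R, y - x ∈ T ↔ k y - k x ∈ T := by
    intro k hk x y
    constructor
    · rintro ⟨m, hm, hz⟩
      exact ⟨m, hm, (schur G m hm T0 hT0 k hk x y).1 hz⟩
    · rintro ⟨m, hm, hz⟩
      exact ⟨m, hm, (schur G m hm T0 hT0 k hk x y).2 hz⟩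
  have hTm : ∀ m : ℕ, (Nat.card R).Coprime m → ∀ z : R, z ∈ T ↔ m • z ∈ T := by
    intro m hm z
    constructor
    · rintro ⟨k, hk, t, ht, rfl⟩
      exact ⟨m * k, Nat.Coprime.mul_right hm hk, t, ht, smul_smul _ _ _⟩
    · rintro ⟨k, hk, t, ht, hz⟩
      obtain ⟨m', hm', hinv⟩ := exists_inv_mult (R := R) m hm
      refine ⟨m' * k, Nat.Coprime.mul_right hm' hk, t, ht, ?_⟩
      rw [← smul_smul, ← hz, hinv]
  have hTcl : ∀ a ∈ A, ∀ a' ∈ A, a ≠ a' → a - a' ∈ T := by
    intro a ha a' ha' hne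
    exact ⟨1, Nat.coprime_one_right _, a - a', ⟨1, G.one_mem, a, ha, a', ha', hne, rfl⟩,
      (one_smul _ _).symm⟩
  have hTco : ∀ b ∈ B, ∀ b' ∈ B, b - b' ∉ T := by
    rintro b hb b' hb' ⟨k, hk, t, ⟨g, hg, a, ha, a', ha', hne, rfl⟩, hbt⟩
    have hs := sands k hk (A.image g) B (by rw [card_image_of_injective _ g.injective, hAB])
      ⟨b, hb⟩ (by
        intro u hu v hv c hc c' hc' huv
        obtain ⟨u', hu', rfl⟩ := mem_image.1 hu
        obtain ⟨v', hv', rfl⟩ := mem_image.1 hv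
        rw [ht g hg u' hu' v' hv' c hc c' hc' huv])
    have := hs (g a) (mem_image_of_mem _ ha) (g a') (mem_image_of_mem _ ha') b hb b' hb'
      (by rw [hbt, smul_sub])
    exact hne (g.injective this)
  refine ⟨A, B, T, hA, hB, hAB, ?_, ?_, hTcl, hTco⟩
  · intro σ hσ
    induction hσ using Subgroup.closure_induction with
    | mem σ hσ =>
      rcases hσ with hσ | ⟨m, hm⟩
      · exact hTG σ hσ
      · intro x y
        rw [hm, hm, ← smul_sub]
        exact hTm m (coprime_of_perm σ m hm) _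
    | one => intro x y; exact Iff.rfl
    | mul σ τ _ _ hs hτ =>
      intro x y
      rw [hτ x y, hs (τ x) (τ y)]
      exact Iff.rfl
    | inv σ _ hs =>
      intro x y
      have e1 : ∀ z, σ (σ⁻¹ z) = z := fun z => σ.apply_symm_apply z
      rw [hs (σ⁻¹ x) (σ⁻¹ y), e1, e1]
  · obtain ⟨b, hb⟩ : B.Nonempty := card_pos.1 (by omega)
    have := hTco b hb b hb
    rwa [sub_self] at this

omit [Finite R] in
theorem le_withMultipliers (G : Subgroup (Equiv.Perm R)) : G ≤ withMultipliers G := by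
  intro g hg
  exact Subgroup.subset_closure (Or.inl hg)

theorem hasMinRank_iff_withMultipliers (G : Subgroup (Equiv.Perm R))
    (hG : ∀ a : R, Equiv.addRight a ∈ G) (r : ℕ) :
    HasMinRank G r ↔ HasMinRank (withMultipliers G) r := by
  have hG' : ∀ a : R, Equiv.addRight a ∈ withMultipliers G := fun a => le_withMultipliers G (hG a)
  constructor
  · intro h
    obtain ⟨A, B, T, hA, hB, hAB, hT, h0, hcl, hco⟩ := exists_rational G hG r h
    rw [← hA]
    exact hasMinRank_of (withMultipliers G) T (fun g hg x y => (hT g hg x y).1) h0 A B hB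
      hAB hcl hco
  · intro h
    obtain ⟨A, B, T, hA, hB, hAB, hT, h0, hcl, hco⟩ := exists_rational (withMultipliers G) hG' r h
    rw [← hA]
    exact hasMinRank_of G T (fun g hg x y => (hT g (le_withMultipliers _
      (le_withMultipliers G hg)) x y).1) h0 A B hB hAB hcl hco

/-- The multiplier theorem. -/
theorem synchronizing_iff_withMultipliers (G : Subgroup (Equiv.Perm R))
    (hG : ∀ a : R, Equiv.addRight a ∈ G) :
    Synchronizing G ↔ Synchronizing (withMultipliers G) := by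
  rw [← not_iff_not, not_synchronizing_iff, not_synchronizing_iff]
  simp only [hasMinRank_iff_withMultipliers G hG]

end Pool.Agent.SyncPerm
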