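import Pool.Agent.Lib.MP_288833_lc.Square

/-!
A transitive group of degree `p ^ 2` contains a regular abelian subgroup.
-/

namespace Pool.Agent.SyncPerm

open Finset

/-- A Sylow subgroup of a transitive group of degree `p ^ 2` is transitive. -/
theorem exists_transitive_pgroup {Ω : Type*} [Finite Ω] (p : ℕ) [Fact p.Prime]
    (hcard : Nat.card Ω = p ^ 2) (G : Subgroup (Equiv.Perm Ω))
    (hG : ∀ x y : Ω, ∃ g ∈ G, g x = y) :
    ∃ Q : Subgroup (Equiv.Perm Ω), Q ≤ G ∧ IsPGroup p Q ∧ ∀ x y : Ω, ∃ g ∈ Q, g x = y := by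
  classical
  have hpr : p.Prime := Fact.out
  obtain ⟨P⟩ : Nonempty (Sylow p G) := inferInstance
  let Q : Subgroup (Equiv.Perm Ω) := (P : Subgroup G).map G.subtype
  refine ⟨Q, Subgroup.map_subtype_le _, P.isPGroup'.map _, ?_⟩
  have htop : ∀ x : Ω, MulAction.orbit (P : Subgroup G) x = Set.univ := by
    intro x
    have h1 : (MulAction.stabilizer G x).index = p ^ 2 := by
      rw [MulAction.index_stabilizer]
      have : MulAction.orbit G x = Set.univ := by
        rw [Set.eq_univ_iff_forall]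
        intro y
        obtain ⟨g, hg, hgy⟩ := hG x y
        exact ⟨⟨g, hg⟩, hgy⟩
      rw [this, Set.ncard_univ, hcard]
    have h2 : (MulAction.stabilizer (P : Subgroup G) x).index =
        (MulAction.orbit (P : Subgroup G) x).ncard := MulAction.index_stabilizer _ _
    have h3 : MulAction.stabilizer (P : Subgroup G) x =
        (MulAction.stabilizer G x).subgroupOf (P : Subgroup G) := by
      ext g
      rfl
    have h4 : (MulAction.stabilizer G x ⊓ (P : Subgroup G)).relIndex (P : Subgroup G) *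
        (P : Subgroup G).index = (MulAction.stabilizer G x ⊓ (P : Subgroup G)).index :=
      Subgroup.relIndex_mul_index inf_le_right
    rw [Subgroup.inf_relIndex_right] at h4
    have h5 : p ^ 2 ∣ (MulAction.stabilizer G x).relIndex (P : Subgroup G) *
        (P : Subgroup G).index := by
      rw [h4, ← h1]
      exact Subgroup.index_dvd_of_le inf_le_left
    have h6 : ¬ p ∣ (P : Subgroup G).index := P.not_dvd_index
    have h7 : p ^ 2 ∣ (MulAction.stabilizer G x).relIndex (P : Subgroup G) := by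
      apply Nat.Coprime.dvd_of_dvd_mul_right _ h5
      exact Nat.Coprime.pow_left 2 ((Nat.Prime.coprime_iff_not_dvd hpr).2 h6)
    have h8 : (MulAction.stabilizer G x).relIndex (P : Subgroup G) =
        (MulAction.orbit (P : Subgroup G) x).ncard := by
      rw [← h2, h3]
      rfl
    rw [h8] at h7
    have h9 : 0 < (MulAction.orbit (P : Subgroup G) x).ncard := by
      rw [Set.ncard_pos (Set.toFinite _)]
      exact ⟨x, MulAction.mem_orbit_self x⟩
    have h10 : p ^ 2 ≤ (MulAction.orbit (P : Subgroup G) x).ncard := Nat.le_of_dvd h9 h7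
    apply Set.eq_of_subset_of_ncard_le (Set.subset_univ _) _ (Set.toFinite _)
    rw [Set.ncard_univ, hcard]
    exact h10
  intro x y
  have h1 : y ∈ MulAction.orbit (P : Subgroup G) x := by rw [htop x]; exact Set.mem_univ y
  obtain ⟨g, hg⟩ := h1
  exact ⟨((g : G) : Equiv.Perm Ω), ⟨(g : G), g.2, rfl⟩, hg⟩

/-- A transitive `p`-group of degree `p ^ 2` contains a transitive commutative subgroup. -/
theorem exists_transitive_comm {Ω : Type*} [Finite Ω] (p : ℕ) [Fact p.Prime]
    (hcard : Nat.card Ω = p ^ 2) (Q : Subgroup (Equiv.Perm Ω)) (hQ : IsPGroup p Q)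
    (htr : ∀ x y : Ω, ∃ g ∈ Q, g x = y) :
    ∃ H : Subgroup (Equiv.Perm Ω), H ≤ Q ∧ (∀ a ∈ H, ∀ b ∈ H, a * b = b * a) ∧
      ∀ x y : Ω, ∃ g ∈ H, g x = y := by
  classical
  have hpr : p.Prime := Fact.out
  have hp : 1 < p := hpr.one_lt
  -- base point
  have hcpos : 1 < Nat.card Ω := by rw [hcard]; nlinarith
  have hnt : Nontrivial Ω := Finite.one_lt_card_iff_nontrivial.1 hcpos
  obtain ⟨o, o', hoo⟩ := exists_pair_ne Ω
  have hQnt : Nontrivial Q := by
    obtain ⟨g, hg, hgo⟩ := htr o o'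
    refine ⟨⟨g, hg⟩, 1, ?_⟩
    intro h
    have h1 : g = 1 := congrArg Subtype.val h
    rw [h1] at hgo
    exact hoo hgo
  obtain ⟨⟨z, hzc⟩, hz1⟩ := @exists_ne (Subgroup.center Q) hQ.center_nontrivial 1
  have hz1' : (z : Equiv.Perm Ω) ≠ 1 := by
    intro h
    apply hz1
    apply Subtype.ext
    apply Subtype.ext
    exact h
  have hcomm : ∀ g ∈ Q, g * (z : Equiv.Perm Ω) = (z : Equiv.Perm Ω) * g := by
    intro g hg
    have := Subgroup.mem_center_iff.1 hzc ⟨g, hg⟩
    exact congrArg Subtype.val this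
  -- z moves o
  have hzo : (z : Equiv.Perm Ω) o ≠ o := by
    intro h
    apply hz1'
    ext y
    obtain ⟨g, hg, rfl⟩ := htr o y
    have h1 := congrArg (fun k : Equiv.Perm Ω => k o) (hcomm g hg)
    have h2 : g ((z : Equiv.Perm Ω) o) = (z : Equiv.Perm Ω) (g o) := h1
    rw [h] at h2
    exact h2.symm
  -- general principle
  have hmain : ∀ H : Subgroup (Equiv.Perm Ω), H ≤ Q → (∀ a ∈ H, ∀ b ∈ H, a * b = b * a) →
      p < (MulAction.orbit H o).ncard → ∃ H : Subgroup (Equiv.Perm Ω), H ≤ Q ∧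
      (∀ a ∈ H, ∀ b ∈ H, a * b = b * a) ∧ ∀ x y : Ω, ∃ g ∈ H, g x = y := by
    intro H hHQ hHc hlt
    refine ⟨H, hHQ, hHc, ?_⟩
    have hHp : IsPGroup p H := hQ.to_le hHQ
    obtain ⟨k, hk⟩ := hHp.card_orbit o
    have hk' : (MulAction.orbit H o).ncard = p ^ k := hk
    rw [hk'] at hlt
    have hk2 : 2 ≤ k := by
      by_contra hlt2
      have : p ^ k ≤ p ^ 1 := Nat.pow_le_pow_right (by omega) (by omega)
      rw [pow_one] at this
      omega
    have h1 : p ^ 2 ≤ (MulAction.orbit H o).ncard := by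
      rw [hk']
      exact Nat.pow_le_pow_right (by omega) hk2
    have h2 : MulAction.orbit H o = Set.univ := by
      apply Set.eq_of_subset_of_ncard_le (Set.subset_univ _) _ (Set.toFinite _)
      rw [Set.ncard_univ, hcard]
      exact h1
    intro x y
    have hx : x ∈ MulAction.orbit H o := by rw [h2]; exact Set.mem_univ x
    have hy : y ∈ MulAction.orbit H o := by rw [h2]; exact Set.mem_univ y
    obtain ⟨a, ha⟩ := hx
    obtain ⟨b, hb⟩ := hy
    have ha' : (a : Equiv.Perm Ω) o = x := ha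
    have hb' : (b : Equiv.Perm Ω) o = y := hb
    refine ⟨(b : Equiv.Perm Ω) * (a : Equiv.Perm Ω)⁻¹, H.mul_mem b.2 (H.inv_mem a.2), ?_⟩
    rw [← ha', ← hb']
    show (b : Equiv.Perm Ω) ((a : Equiv.Perm Ω)⁻¹ ((a : Equiv.Perm Ω) o)) = _
    have e1 : ∀ w, (a : Equiv.Perm Ω)⁻¹ ((a : Equiv.Perm Ω) w) = w :=
      fun w => (a : Equiv.Perm Ω).symm_apply_apply w
    rw [e1]
  -- the orbit of z
  let Z : Subgroup (Equiv.Perm Ω) := Subgroup.zpowers (z : Equiv.Perm Ω)
  have hZQ : Z ≤ Q := by
    rw [Subgroup.zpowers_le]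
    exact z.2
  have hZorb : p ≤ (MulAction.orbit Z o).ncard := by
    have hZp : IsPGroup p Z := hQ.to_le hZQ
    obtain ⟨k, hk⟩ := hZp.card_orbit o
    have hk' : (MulAction.orbit Z o).ncard = p ^ k := hk
    rw [hk']
    have hk1 : k ≠ 0 := by
      rintro rfl
      rw [pow_zero, Set.ncard_eq_one] at hk'
      obtain ⟨w, hw⟩ := hk'
      have h1 : o ∈ MulAction.orbit Z o := MulAction.mem_orbit_self o
      have h2 : (z : Equiv.Perm Ω) o ∈ MulAction.orbit Z o :=
        ⟨⟨(z : Equiv.Perm Ω), Subgroup.mem_zpowers _⟩, rfl⟩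
      rw [hw] at h1 h2
      exact hzo (h2.trans h1.symm)
    calc p = p ^ 1 := (pow_one p).symm
      _ ≤ p ^ k := Nat.pow_le_pow_right (by omega) (by omega)
  by_cases hout : ∃ y : Ω, y ∉ MulAction.orbit Z o
  · obtain ⟨y, hy⟩ := hout
    obtain ⟨g, hg, hgy⟩ := htr o y
    let H : Subgroup (Equiv.Perm Ω) := Subgroup.closure {(z : Equiv.Perm Ω), g}
    have hHQ : H ≤ Q := by
      rw [Subgroup.closure_le]
      rintro k (rfl | hk)
      · exact z.2
      · rw [Set.mem_singleton_iff] at hk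
        rw [hk]; exact hg
    have hHc : ∀ a ∈ H, ∀ b ∈ H, a * b = b * a := by
      have hcl : ∀ x ∈ ({(z : Equiv.Perm Ω), g} : Set (Equiv.Perm Ω)),
          ∀ y ∈ ({(z : Equiv.Perm Ω), g} : Set (Equiv.Perm Ω)), x * y = y * x := by
        rintro a (rfl | ha) b (rfl | hb)
        · rfl
        · rw [Set.mem_singleton_iff] at hb
          rw [hb]; exact (hcomm g hg).symm
        · rw [Set.mem_singleton_iff] at ha
          rw [ha]; exact hcomm g hg
        · rw [Set.mem_singleton_iff] at ha hb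
          rw [ha, hb]
      intro a ha b hb
      have h1 : H ≤ Subgroup.centralizer (H : Set (Equiv.Perm Ω)) := by
        rw [Subgroup.centralizer_closure, Subgroup.closure_le]
        intro x hx
        rw [SetLike.mem_coe, Subgroup.mem_centralizer_iff]
        intro y hy
        exact hcl y hy x hx
      exact (Subgroup.mem_centralizer_iff.1 (h1 ha) b hb).symm
    apply hmain H hHQ hHc
    have hsub : insert y (MulAction.orbit Z o) ⊆ MulAction.orbit H o := by
      intro w hw
      rcases hw with rfl | ⟨k, rfl⟩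
      · exact ⟨⟨g, Subgroup.subset_closure (Or.inr rfl)⟩, hgy⟩
      · have hZH : Z ≤ H := by
          rw [Subgroup.zpowers_le]
          exact Subgroup.subset_closure (Or.inl rfl)
        exact ⟨⟨(k : Equiv.Perm Ω), hZH k.2⟩, rfl⟩
    calc p < (MulAction.orbit Z o).ncard + 1 := by omega
      _ = (insert y (MulAction.orbit Z o)).ncard := (Set.ncard_insert_of_notMem hy).symm
      _ ≤ (MulAction.orbit H o).ncard := Set.ncard_le_ncard hsub
  · push Not at hout
    apply hmain Z hZQ
    · intro a ha b hb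
      obtain ⟨i, rfl⟩ := Subgroup.mem_zpowers_iff.1 ha
      obtain ⟨j, rfl⟩ := Subgroup.mem_zpowers_iff.1 hb
      rw [← zpow_add, ← zpow_add, add_comm]
    · have : MulAction.orbit Z o = Set.univ := Set.eq_univ_iff_forall.2 hout
      rw [this, Set.ncard_univ, hcard]
      nlinarith

/-- A transitive commutative group gives an abelian group structure on the set. -/
theorem exists_addCommGroup {Ω : Type*} [Finite Ω] [Nonempty Ω] (H : Subgroup (Equiv.Perm Ω))
    (hc : ∀ a ∈ H, ∀ b ∈ H, a * b = b * a) (htr : ∀ x y : Ω, ∃ g ∈ H, g x = y) :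
    ∃ inst : AddCommGroup Ω, ∀ a : Ω,
      @Equiv.addRight Ω inst.toAddGroup a ∈ H := by
  classical
  obtain ⟨o⟩ := ‹Nonempty Ω›
  have hinj : ∀ h h' : H, (h : Equiv.Perm Ω) o = (h' : Equiv.Perm Ω) o → h = h' := by
    intro h h' hh
    apply Subtype.ext
    ext y
    obtain ⟨k, hk, rfl⟩ := htr o y
    have h1 : (h : Equiv.Perm Ω) (k o) = k ((h : Equiv.Perm Ω) o) :=
      congrArg (fun t : Equiv.Perm Ω => t o) (hc h h.2 k hk)
    have h2 : (h' : Equiv.Perm Ω) (k o) = k ((h' : Equiv.Perm Ω) o) :=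
      congrArg (fun t : Equiv.Perm Ω => t o) (hc h' h'.2 k hk)
    rw [h1, h2, hh]
  let e : H ≃ Ω := Equiv.ofBijective (fun h => (h : Equiv.Perm Ω) o)
    ⟨fun h h' hh => hinj h h' hh, fun y => by
      obtain ⟨k, hk, hko⟩ := htr o y
      exact ⟨⟨k, hk⟩, hko⟩⟩
  let instH : CommGroup H := { (inferInstance : Group H) with
    mul_comm := fun a b => Subtype.ext (hc a a.2 b b.2) }
  let f : Ω ≃ Additive H := e.symm.trans Additive.ofMul
  let inst : AddCommGroup Ω := f.addCommGroup
  refine ⟨inst, ?_⟩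
  intro a
  have h1 : @Equiv.addRight Ω inst.toAddGroup a = ((e.symm a : H) : Equiv.Perm Ω) := by
    ext x
    show e (e.symm x * e.symm a) = _
    rw [mul_comm]
    have h2 : ((e.symm x : H) : Equiv.Perm Ω) o = x := e.apply_symm_apply x
    show ((e.symm a : H) : Equiv.Perm Ω) (((e.symm x : H) : Equiv.Perm Ω) o) = _
    rw [h2]
  rw [h1]
  exact (e.symm a).2

end Pool.Agent.SyncPerm
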