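import Pool.Agent.Lib.MP_288833_lc.Base

/-!
Multiplier arguments in the group algebra over a prime field.
-/

namespace Pool.Agent.SyncPerm

open Finset

variable {R : Type*} [AddCommGroup R] [Finite R]

omit [Finite R] in
theorem charP_alg (q : ℕ) [Fact q.Prime] : CharP (AddMonoidAlgebra (ZMod q) R) q := by
  refine charP_of_injective_algebraMap (algebraMap (ZMod q) (AddMonoidAlgebra (ZMod q) R)).injective q

omit [Finite R] in
/-- multiplication by a prime not dividing the order is injective -/
theorem prime_smul_injective (q : ℕ) (hq : q.Prime) (hqR : ¬ q ∣ Nat.card R) :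
    Function.Injective (fun x : R => q • x) := by
  have hco : (Nat.card R).Coprime q := ((Nat.Prime.coprime_iff_not_dvd hq).2 hqR).symm
  exact (nsmulCoprime hco).injective

theorem sum_indicator_pow (q : ℕ) [Fact q.Prime] (A : Finset R) :
    (∑ a ∈ A, AddMonoidAlgebra.single a (1 : ZMod q)) ^ q =
      ∑ a ∈ A, AddMonoidAlgebra.single (q • a) (1 : ZMod q) := by
  have := charP_alg (R := R) q
  rw [sum_pow_char]
  apply Finset.sum_congr rfl
  intro a _
  rw [AddMonoidAlgebra.single_pow, one_pow]

/-- Sands: replacing a tile by its multiple by a prime not dividing the order. -/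
theorem sands_prime (q : ℕ) (hq : q.Prime) (hqR : ¬ q ∣ Nat.card R) (A B : Finset R)
    (hAB : A.card * B.card = Nat.card R)
    (htile : ∀ a ∈ A, ∀ a' ∈ A, ∀ b ∈ B, ∀ b' ∈ B, a - a' = b - b' → a = a') :
    ∀ a ∈ A, ∀ a' ∈ A, ∀ b ∈ B, ∀ b' ∈ B, q • a - q • a' = b - b' → a = a' := by
  classical
  have : Fact q.Prime := ⟨hq⟩
  have := Fintype.ofFinite R
  have := charP_alg (R := R) q
  have hcardR : Nat.card R = (univ : Finset R).card := by
    rw [Nat.card_eq_fintype_card, Finset.card_univ]
  have hcard : (A ×ˢ B).card = Fintype.card R := by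
    rw [Finset.card_product, hAB, Nat.card_eq_fintype_card]
  have hinj : Set.InjOn (fun x : R × R => x.1 - x.2) (A ×ˢ B : Finset (R × R)) := by
    rintro ⟨a, b⟩ hx ⟨a', b'⟩ hy hxy
    rw [mem_coe, mem_product] at hx hy
    have hxy' : a - b = a' - b' := hxy
    have h3 : a - a' = b - b' := by
      rw [sub_eq_sub_iff_add_eq_add] at hxy' ⊢
      rw [hxy']; abel
    have h4 : a = a' := htile a hx.1 a' hy.1 b hx.2 b' hy.2 h3
    subst h4
    have h5 : b = b' := by
      have := sub_right_injective (b := a) hxy'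
      exact this
    rw [h5]
  have himg : (A ×ˢ B).image (fun x : R × R => x.1 - x.2) = univ := by
    apply Finset.eq_univ_of_card
    rw [Finset.card_image_of_injOn hinj, hcard]
  let SA : AddMonoidAlgebra (ZMod q) R := ∑ a ∈ A, AddMonoidAlgebra.single a (1 : ZMod q)
  let SB : AddMonoidAlgebra (ZMod q) R := ∑ b ∈ B, AddMonoidAlgebra.single (-b) (1 : ZMod q)
  let SR : AddMonoidAlgebra (ZMod q) R := ∑ x : R, AddMonoidAlgebra.single x (1 : ZMod q)
  have h1 : SA * SB = SR := by
    show (∑ a ∈ A, AddMonoidAlgebra.single a (1 : ZMod q)) *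
      (∑ b ∈ B, AddMonoidAlgebra.single (-b) (1 : ZMod q)) = _
    rw [Finset.sum_mul_sum, ← Finset.sum_product']
    have : ∀ x : R × R, AddMonoidAlgebra.single x.1 (1 : ZMod q) *
        AddMonoidAlgebra.single (-x.2) (1 : ZMod q) =
        AddMonoidAlgebra.single (x.1 - x.2) (1 : ZMod q) := by
      intro x
      rw [AddMonoidAlgebra.single_mul_single, one_mul, sub_eq_add_neg]
    simp only [this]
    show _ = ∑ x : R, AddMonoidAlgebra.single x (1 : ZMod q)
    rw [← himg, Finset.sum_image hinj]
  have h2 : SA * SR = (A.card : ZMod q) • SR := by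
    show (∑ a ∈ A, AddMonoidAlgebra.single a (1 : ZMod q)) * SR = _
    rw [Finset.sum_mul]
    have : ∀ a ∈ A, AddMonoidAlgebra.single a (1 : ZMod q) * SR = SR := by
      intro a _
      show AddMonoidAlgebra.single a (1 : ZMod q) *
        (∑ x : R, AddMonoidAlgebra.single x (1 : ZMod q)) =
        ∑ x : R, AddMonoidAlgebra.single x (1 : ZMod q)
      rw [Finset.mul_sum]
      simp only [AddMonoidAlgebra.single_mul_single, one_mul]
      exact Equiv.sum_comp (Equiv.addLeft a)
        (fun x : R => (AddMonoidAlgebra.single x (1 : ZMod q) : AddMonoidAlgebra (ZMod q) R))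
    rw [Finset.sum_congr rfl this, Finset.sum_const, Nat.cast_smul_eq_nsmul]
  have h3 : ∀ k : ℕ, SA ^ k * SR = ((A.card : ZMod q) ^ k) • SR := by
    intro k
    induction k with
    | zero => simp
    | succ k ih =>
      rw [pow_succ, mul_assoc, h2, mul_smul_comm, ih, smul_smul, pow_succ]
      rw [mul_comm]
  have hA0 : (A.card : ZMod q) ≠ 0 := by
    intro h0
    rw [ZMod.natCast_eq_zero_iff] at h0
    exact hqR (hAB ▸ Dvd.dvd.mul_right h0 _)
  have h4 : SA ^ q * SB = SR := by
    have hq1 : (q - 1) + 1 = q := by have := hq.one_lt; omega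
    have : SA ^ q * SB = SA ^ (q - 1) * (SA * SB) := by
      rw [← mul_assoc, ← pow_succ, hq1]
    rw [this, h1, h3, ZMod.pow_card_sub_one_eq_one hA0, one_smul]
  have h5 : ∑ y ∈ A ×ˢ B, AddMonoidAlgebra.single (q • y.1 - y.2) (1 : ZMod q) = SR := by
    rw [← h4]
    show _ = (∑ a ∈ A, AddMonoidAlgebra.single a (1 : ZMod q)) ^ q *
      (∑ b ∈ B, AddMonoidAlgebra.single (-b) (1 : ZMod q))
    rw [sum_indicator_pow, Finset.sum_mul_sum, ← Finset.sum_product']
    apply Finset.sum_congr rfl
    intro y _
    rw [AddMonoidAlgebra.single_mul_single, one_mul, sub_eq_add_neg]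
  have hsurj : ∀ x : R, ∃ y ∈ A ×ˢ B, q • y.1 - y.2 = x := by
    intro x
    by_contra hcon
    push Not at hcon
    have h6 := congrArg (fun F => F.coeff x) h5
    have h7 : (∑ y ∈ A ×ˢ B, AddMonoidAlgebra.single (q • y.1 - y.2) (1 : ZMod q)).coeff x = 0 := by
      rw [AddMonoidAlgebra.coeff_sum, Finsupp.finsetSum_apply]
      apply Finset.sum_eq_zero
      intro y hy
      rw [AddMonoidAlgebra.coeff_single, Finsupp.single_apply, if_neg (hcon y hy)]
    have h8 : SR.coeff x = 1 := by
      show (∑ x : R, AddMonoidAlgebra.single x (1 : ZMod q)).coeff x = 1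
      rw [AddMonoidAlgebra.coeff_sum, Finsupp.finsetSum_apply]
      simp [AddMonoidAlgebra.coeff_single, Finsupp.single_apply]
    have h9 : (0 : ZMod q) = 1 := h7.symm.trans (Eq.trans h6 h8)
    exact zero_ne_one h9
  have himg2 : (A ×ˢ B).image (fun x : R × R => q • x.1 - x.2) = univ := by
    rw [Finset.eq_univ_iff_forall]
    intro x
    obtain ⟨y, hy, hyx⟩ := hsurj x
    exact mem_image.2 ⟨y, hy, hyx⟩
  have hinj2 : Set.InjOn (fun x : R × R => q • x.1 - x.2) (A ×ˢ B : Finset (R × R)) := by
    apply Finset.card_image_iff.1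
    rw [himg2, Finset.card_univ, hcard]
  intro a ha a' ha' b hb b' hb' hab
  have h10 : q • a - b = q • a' - b' := by
    rw [sub_eq_sub_iff_add_eq_add] at hab ⊢
    rw [hab]; abel
  have := hinj2 (mem_coe.2 (mem_product.2 ⟨ha, hb⟩) : (a, b) ∈ _)
    (mem_coe.2 (mem_product.2 ⟨ha', hb'⟩) : (a', b') ∈ _) h10
  exact (Prod.ext_iff.1 this).1

/-- Sands for all multipliers coprime to the order. -/
theorem sands (m : ℕ) (hm : (Nat.card R).Coprime m) : ∀ (A B : Finset R),
    A.card * B.card = Nat.card R → B.Nonempty →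
    (∀ a ∈ A, ∀ a' ∈ A, ∀ b ∈ B, ∀ b' ∈ B, a - a' = b - b' → a = a') →
    ∀ a ∈ A, ∀ a' ∈ A, ∀ b ∈ B, ∀ b' ∈ B, m • a - m • a' = b - b' → a = a' := by
  classical
  induction m using induction_on_primes with
  | zero =>
    intro A B hAB hB ht a ha a' ha' b hb b' hb' _
    have h1 : Nat.card R = 1 := by simpa using hm
    have : Subsingleton R := (Nat.card_eq_one_iff_unique.1 h1).1
    exact Subsingleton.elim _ _
  | one =>
    intro A B hAB hB ht a ha a' ha' b hb b' hb' h
    rw [one_smul, one_smul] at h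
    exact ht a ha a' ha' b hb b' hb' h
  | prime_mul q n hq ih =>
    intro A B hAB hB ht
    have hq' : ¬ q ∣ Nat.card R := by
      have : (Nat.card R).Coprime q := Nat.Coprime.coprime_mul_right_right hm
      exact (Nat.Prime.coprime_iff_not_dvd hq).1 this.symm
    have hn : (Nat.card R).Coprime n := Nat.Coprime.coprime_mul_left_right hm
    have h1 := sands_prime q hq hq' A B hAB ht
    have hinj : Function.Injective (fun x : R => q • x) := prime_smul_injective q hq hq'
    have h2 := ih hn (A.image (fun x => q • x)) B (by rw [card_image_of_injective _ hinj, hAB]) hB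
      (by
        intro a ha a' ha' b hb b' hb' hab
        obtain ⟨u, hu, rfl⟩ := mem_image.1 ha
        obtain ⟨v, hv, rfl⟩ := mem_image.1 ha'
        rw [h1 u hu v hv b hb b' hb' hab])
    intro a ha a' ha' b hb b' hb' hab
    have := h2 (q • a) (mem_image_of_mem _ ha) (q • a') (mem_image_of_mem _ ha') b hb b' hb'
      (by rw [smul_smul, smul_smul, mul_comm n q]; exact hab)
    exact hinj this

/-- coefficient function invariant under `G`. -/
def CInv {K : Type*} [CommRing K] (G : Subgroup (Equiv.Perm R)) (F : AddMonoidAlgebra K R) : Prop :=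
  ∀ g ∈ G, ∀ x y : R, F.coeff (g y - g x) = F.coeff (y - x)

omit [Finite R] in
theorem coeff_mul_sum {K : Type*} [CommRing K] [Fintype R] (F F' : AddMonoidAlgebra K R) (z : R) :
    (F * F').coeff z = ∑ u : R, F.coeff u * F'.coeff (z - u) := by
  classical
  rw [AddMonoidAlgebra.coeff_mul_antidiag F F' z (univ.image (fun u : R => (u, z - u)))]
  · rw [Finset.sum_image]
    intro x _ y _ hxy
    exact (Prod.ext_iff.1 hxy).1
  · intro p
    constructor
    · intro hp
      obtain ⟨u, -, rfl⟩ := mem_image.1 hp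
      show u + (z - u) = z
      abel
    · intro hp
      refine mem_image.2 ⟨p.1, mem_univ _, ?_⟩
      ext
      · rfl
      · show z - p.1 = p.2
        rw [← hp]; abel

theorem CInv.mul {K : Type*} [CommRing K] (G : Subgroup (Equiv.Perm R))
    {F F' : AddMonoidAlgebra K R} (hF : CInv G F) (hF' : CInv G F') : CInv G (F * F') := by
  have := Fintype.ofFinite R
  intro g hg x y
  rw [coeff_mul_sum, coeff_mul_sum]
  have h1 : ∑ u : R, F.coeff u * F'.coeff (g y - g x - u) =
      ∑ v : R, F.coeff (g v - g x) * F'.coeff (g y - g v) := by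
    rw [← (g.trans (Equiv.subRight (g x))).sum_comp]
    apply Finset.sum_congr rfl
    intro v _
    have e1 : (g.trans (Equiv.subRight (g x))) v = g v - g x := rfl
    rw [e1]
    have e2 : g y - g x - (g v - g x) = g y - g v := by abel
    rw [e2]
  have h2 : ∑ u : R, F.coeff u * F'.coeff (y - x - u) =
      ∑ v : R, F.coeff (v - x) * F'.coeff (y - v) := by
    rw [← (Equiv.subRight x).sum_comp]
    apply Finset.sum_congr rfl
    intro v _
    have e1 : (Equiv.subRight x) v = v - x := rfl
    rw [e1]
    have e2 : y - x - (v - x) = y - v := by abel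
    rw [e2]
  rw [h1, h2]
  apply Finset.sum_congr rfl
  intro v _
  rw [hF g hg, hF' g hg]

theorem CInv.pow {K : Type*} [CommRing K] (G : Subgroup (Equiv.Perm R))
    {F : AddMonoidAlgebra K R} (hF : CInv G F) (k : ℕ) : CInv G (F ^ (k + 1)) := by
  induction k with
  | zero => simpa using hF
  | succ k ih =>
    rw [pow_succ]
    exact CInv.mul G ih hF

/-- Schur: the multiple of an invariant set by a prime not dividing the order is invariant. -/
theorem schur_prime (G : Subgroup (Equiv.Perm R)) (q : ℕ) (hq : q.Prime)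
    (hqR : ¬ q ∣ Nat.card R) (T : Set R)
    (hT : ∀ g ∈ G, ∀ x y : R, y - x ∈ T ↔ g y - g x ∈ T) :
    ∀ g ∈ G, ∀ x y : R, y - x ∈ {z : R | ∃ t ∈ T, z = q • t} ↔
      g y - g x ∈ {z : R | ∃ t ∈ T, z = q • t} := by
  classical
  have : Fact q.Prime := ⟨hq⟩
  have := Fintype.ofFinite R
  have hinj := prime_smul_injective q hq hqR
  let S : Finset R := univ.filter (fun t => t ∈ T)
  let F : AddMonoidAlgebra (ZMod q) R := ∑ t ∈ S, AddMonoidAlgebra.single t (1 : ZMod q)
  have hFc : ∀ z, F.coeff z = if z ∈ T then 1 else 0 := by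
    intro z
    show (∑ t ∈ S, AddMonoidAlgebra.single t (1 : ZMod q)).coeff z = _
    rw [AddMonoidAlgebra.coeff_sum, Finsupp.finsetSum_apply]
    have : ∀ t ∈ S, (AddMonoidAlgebra.single t (1 : ZMod q)).coeff z = if t = z then 1 else 0 := by
      intro t _
      rw [AddMonoidAlgebra.coeff_single, Finsupp.single_apply]
    rw [Finset.sum_congr rfl this, Finset.sum_ite_eq']
    simp [S]
  have hFinv : CInv G F := by
    intro g hg x y
    rw [hFc, hFc]
    simp only [hT g hg x y]
  have hpow : CInv G (F ^ q) := by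
    have hq1 : (q - 1) + 1 = q := by have := hq.one_lt; omega
    have := hFinv.pow G (q - 1)
    rwa [hq1] at this
  have hFq : ∀ z, (F ^ q).coeff z = if z ∈ {z : R | ∃ t ∈ T, z = q • t} then 1 else 0 := by
    intro z
    have e1 : F ^ q = ∑ t ∈ S, AddMonoidAlgebra.single (q • t) (1 : ZMod q) :=
      sum_indicator_pow q S
    rw [e1, AddMonoidAlgebra.coeff_sum, Finsupp.finsetSum_apply]
    have : ∀ t ∈ S, (AddMonoidAlgebra.single (q • t) (1 : ZMod q)).coeff z =
        if q • t = z then 1 else 0 := by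
      intro t _
      rw [AddMonoidAlgebra.coeff_single, Finsupp.single_apply]
    rw [Finset.sum_congr rfl this]
    split_ifs with h
    · obtain ⟨t, ht, rfl⟩ := h
      rw [Finset.sum_eq_single t]
      · rw [if_pos rfl]
      · intro s _ hs
        rw [if_neg]
        intro h
        exact hs (hinj h)
      · intro h
        exact absurd (mem_filter.2 ⟨mem_univ _, ht⟩) h
    · apply Finset.sum_eq_zero
      intro t ht
      rw [if_neg]
      intro h'
      exact h ⟨t, (mem_filter.1 ht).2, h'.symm⟩
  intro g hg x y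
  have h1 := hpow g hg x y
  rw [hFq, hFq] at h1
  constructor
  · intro h
    by_contra h'
    rw [if_neg h', if_pos h] at h1
    exact zero_ne_one h1
  · intro h
    by_contra h'
    rw [if_pos h, if_neg h'] at h1
    exact one_ne_zero h1

theorem schur (G : Subgroup (Equiv.Perm R)) (m : ℕ) (hm : (Nat.card R).Coprime m) :
    ∀ T : Set R, (∀ g ∈ G, ∀ x y : R, y - x ∈ T ↔ g y - g x ∈ T) →
    ∀ g ∈ G, ∀ x y : R, y - x ∈ {z : R | ∃ t ∈ T, z = m • t} ↔
      g y - g x ∈ {z : R | ∃ t ∈ T, z = m • t} := by
  induction m using induction_on_primes with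
  | zero =>
    intro T hT g hg x y
    have h1 : Nat.card R = 1 := by simpa using hm
    have : Subsingleton R := (Nat.card_eq_one_iff_unique.1 h1).1
    rw [Subsingleton.elim (y - x) (g y - g x)]
  | one =>
    intro T hT g hg x y
    have : {z : R | ∃ t ∈ T, z = 1 • t} = T := by
      ext z
      constructor
      · rintro ⟨t, ht, rfl⟩
        rwa [one_smul]
      · intro hz
        exact ⟨z, hz, (one_smul _ _).symm⟩
    rw [this]
    exact hT g hg x y
  | prime_mul q n hq ih =>
    intro T hT
    have hq' : ¬ q ∣ Nat.card R := by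
      have : (Nat.card R).Coprime q := Nat.Coprime.coprime_mul_right_right hm
      exact (Nat.Prime.coprime_iff_not_dvd hq).1 this.symm
    have hn : (Nat.card R).Coprime n := Nat.Coprime.coprime_mul_left_right hm
    have h1 := ih hn T hT
    have h2 := schur_prime G q hq hq' {z : R | ∃ t ∈ T, z = n • t} h1
    have : {z : R | ∃ t ∈ {z : R | ∃ t ∈ T, z = n • t}, z = q • t} =
        {z : R | ∃ t ∈ T, z = (q * n) • t} := by
      ext z
      constructor
      · rintro ⟨_, ⟨t, ht, rfl⟩, rfl⟩
        exact ⟨t, ht, smul_smul _ _ _⟩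
      · rintro ⟨t, ht, rfl⟩
        exact ⟨n • t, ⟨t, ht, rfl⟩, (smul_smul _ _ _).symm⟩
    rw [this] at h2
    exact h2

end Pool.Agent.SyncPerm
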