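import Pool.Agent.Lib.MP_288833_lc.Criterion

/-!
Groups of degree `p ^ 2` containing a regular abelian subgroup.
-/

namespace Pool.Agent.SyncPerm

open Finset

variable {R : Type*} [AddCommGroup R] [Finite R]

omit [Finite R] in
theorem mult_mem_withMultipliers (G : Subgroup (Equiv.Perm R)) (m : ℕ)
    (hm : (Nat.card R).Coprime m) : ∃ σ ∈ withMultipliers G, ∀ x : R, σ x = m • x := by
  refine ⟨nsmulCoprime hm, Subgroup.subset_closure (Or.inr ⟨m, fun x => rfl⟩), fun x => rfl⟩

/-- If `withMultipliers G` is 2-transitive then `G` is synchronizing. -/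
theorem synchronizing_of_two_transitive (G : Subgroup (Equiv.Perm R))
    (hG : ∀ a : R, Equiv.addRight a ∈ G)
    (h : ∀ x y x' y' : R, x ≠ y → x' ≠ y' → ∃ g ∈ withMultipliers G, g x = x' ∧ g y = y') :
    Synchronizing G := by
  by_contra hcon
  obtain ⟨r, hr, hmr⟩ := (not_synchronizing_iff G).1 hcon
  obtain ⟨A, B, T, hA, hB, hAB, hT, h0, hcl, hco⟩ := exists_rational G hG r hmr
  obtain ⟨a, ha, a', ha', hne⟩ := Finset.one_lt_card.1 (by omega : 1 < A.card)
  obtain ⟨b, hb, b', hb', hne'⟩ := Finset.one_lt_card.1 (by omega : 1 < B.card)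
  obtain ⟨g, hg, h1, h2⟩ := h a a' b b' hne hne'
  have h3 := (hT g hg a' a).1 (hcl a ha a' ha' hne)
  rw [h1, h2] at h3
  exact hco b hb b' hb' h3

omit [Finite R] in
/-- If `withMultipliers G` is not 2-transitive there is an invariant difference set. -/
theorem exists_T_of_not_two_transitive (G : Subgroup (Equiv.Perm R))
    (hG : ∀ a : R, Equiv.addRight a ∈ G)
    (h : ¬ ∀ x y x' y' : R, x ≠ y → x' ≠ y' → ∃ g ∈ withMultipliers G, g x = x' ∧ g y = y') :
    ∃ (T : Set R) (v u : R), v ∈ T ∧ u ∉ T ∧ u ≠ 0 ∧ (0 : R) ∉ T ∧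
      ∀ g ∈ withMultipliers G, ∀ x y : R, y - x ∈ T ↔ g y - g x ∈ T := by
  push Not at h
  obtain ⟨x, y, x', y', hxy, hxy', hno⟩ := h
  have ht : ∀ a : R, Equiv.addRight a ∈ withMultipliers G := fun a =>
      le_withMultipliers G (hG a)
  let T : Set R := {z | ∃ g ∈ withMultipliers G, z = g y - g x}
  have hTf : ∀ k ∈ withMultipliers G, ∀ a b : R, b - a ∈ T → k b - k a ∈ T := by
    rintro k hk a b ⟨g, hg, hab⟩
    refine ⟨k * (Equiv.addRight (a - g x) * g),
      Subgroup.mul_mem _ hk (Subgroup.mul_mem _ (ht _) hg), ?_⟩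
    show k b - k a = k (g y + (a - g x)) - k (g x + (a - g x))
    have e1 : g y + (a - g x) = b := by
      have : g y + (a - g x) = a + (g y - g x) := by abel
      rw [this, ← hab]; abel
    have e2 : g x + (a - g x) = a := by abel
    rw [e1, e2]
  refine ⟨T, y - x, y' - x', ⟨1, Subgroup.one_mem _, rfl⟩, ?_, sub_ne_zero.2 hxy'.symm, ?_, ?_⟩
  · rintro ⟨g, hg, hgy⟩
    refine hno (Equiv.addRight (x' - g x) * g) (Subgroup.mul_mem _ (ht _) hg) ?_ ?_
    · show g x + (x' - g x) = x'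
      abel
    · show g y + (x' - g x) = y'
      have : g y + (x' - g x) = x' + (g y - g x) := by abel
      rw [this, ← hgy]; abel
  · rintro ⟨g, hg, hgy⟩
    exact hxy (g.injective (sub_eq_zero.1 hgy.symm)).symm
  · intro k hk a b
    refine ⟨hTf k hk a b, ?_⟩
    intro hab
    have h4 := hTf k⁻¹ (Subgroup.inv_mem _ hk) _ _ hab
    have e1 : ∀ z, k⁻¹ (k z) = z := fun z => k.symm_apply_apply z
    rwa [e1, e1] at h4

/-- Elementary abelian case. -/
theorem not_sync_of_T_elem (p : ℕ) [Fact p.Prime] (hcard : Nat.card R = p ^ 2)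
    (hexp : ∀ x : R, p • x = 0) (G : Subgroup (Equiv.Perm R))
    (T : Set R) (v u : R) (hv : v ∈ T) (hu : u ∉ T) (hu0 : u ≠ 0) (h0 : (0 : R) ∉ T)
    (hT : ∀ g ∈ withMultipliers G, ∀ x y : R, y - x ∈ T ↔ g y - g x ∈ T) :
    ¬ Synchronizing G := by
  classical
  let _ : Module (ZMod p) R := AddCommGroup.zmodModule hexp
  have hp : 1 < p := (Fact.out : p.Prime).one_lt
  have hTs : ∀ c : ZMod p, c ≠ 0 → ∀ z : R, z ∈ T ↔ c • z ∈ T := by
    intro c hc z
    obtain ⟨σ, hσ, hσx⟩ := smul_mem_withMultipliers G c hc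
    have h2 := hT σ hσ 0 z
    rwa [hσx, hσx, smul_zero, sub_zero, sub_zero] at h2
  have hv0 : v ≠ 0 := by rintro rfl; exact h0 hv
  have hli : ∀ z : R, z ≠ 0 → Function.Injective (fun k : ZMod p => k • z) := by
    intro z hz k k' hkk
    by_contra hne
    have h1 : (k - k') • z = 0 := by rw [sub_smul, sub_eq_zero]; exact hkk
    have h2 : (k - k')⁻¹ • ((k - k') • z) = z := by
      rw [smul_smul, inv_mul_cancel₀ (sub_ne_zero.2 hne), one_smul]
    rw [h1, smul_zero] at h2
    exact hz h2.symm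
  let A : Finset R := univ.image (fun k : ZMod p => k • v)
  let B : Finset R := univ.image (fun k : ZMod p => k • u)
  have hAc : A.card = p := by
    show (univ.image (fun k : ZMod p => k • v)).card = p
    rw [Finset.card_image_of_injective _ (hli v hv0), Finset.card_univ, ZMod.card]
  have hBc : B.card = p := by
    show (univ.image (fun k : ZMod p => k • u)).card = p
    rw [Finset.card_image_of_injective _ (hli u hu0), Finset.card_univ, ZMod.card]
  have h1 : HasMinRank G A.card := by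
    refine hasMinRank_of G T (fun g hg x y => (hT g (le_withMultipliers G hg) x y).1) h0 A B
      (by omega) (by rw [hAc, hBc, hcard, sq]) ?_ ?_
    · intro a ha a' ha' hne
      obtain ⟨k, -, rfl⟩ := mem_image.1 ha
      obtain ⟨k', -, rfl⟩ := mem_image.1 ha'
      rw [← sub_smul]
      refine (hTs _ ?_ v).1 hv
      intro hkk
      exact hne (by rw [sub_eq_zero.1 hkk])
    · intro a ha a' ha' hmem
      obtain ⟨k, -, rfl⟩ := mem_image.1 ha
      obtain ⟨k', -, rfl⟩ := mem_image.1 ha'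
      rw [← sub_smul] at hmem
      by_cases hkk : k - k' = 0
      · rw [hkk, zero_smul] at hmem
        exact h0 hmem
      · exact hu ((hTs _ hkk u).2 hmem)
  exact (not_synchronizing_iff G).2 ⟨A.card, by omega, h1⟩

/-- Cyclic case. -/
theorem not_sync_of_T_cyc (p : ℕ) [Fact p.Prime] (hcard : Nat.card R = p ^ 2)
    (x : R) (hx : p • x ≠ 0) (G : Subgroup (Equiv.Perm R))
    (T : Set R) (v u : R) (hv : v ∈ T) (hu : u ∉ T) (hu0 : u ≠ 0) (h0 : (0 : R) ∉ T)
    (hT : ∀ g ∈ withMultipliers G, ∀ x y : R, y - x ∈ T ↔ g y - g x ∈ T) :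
    ¬ Synchronizing G := by
  classical
  have hpr : p.Prime := Fact.out
  have hp : 1 < p := hpr.one_lt
  have hTs : ∀ m : ℕ, p.Coprime m → ∀ z : R, z ∈ T ↔ m • z ∈ T := by
    intro m hm z
    have hm' : (Nat.card R).Coprime m := by rw [hcard]; exact Nat.Coprime.pow_left 2 hm
    obtain ⟨σ, hσ, hσx⟩ := mult_mem_withMultipliers G m hm'
    have h2 := hT σ hσ 0 z
    rwa [hσx, hσx, smul_zero, sub_zero, sub_zero] at h2
  have hneg : ∀ z : R, z ∈ T ↔ -z ∈ T := by
    intro z
    have hm : p.Coprime (p ^ 2 - 1) := by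
      rw [Nat.Prime.coprime_iff_not_dvd hpr]
      intro hd
      have h3 : p ∣ p ^ 2 := dvd_pow_self p (by norm_num)
      have h4 : 1 ≤ p ^ 2 := Nat.one_le_pow _ _ (by omega)
      have h5 : p ∣ p ^ 2 - (p ^ 2 - 1) := Nat.dvd_sub h3 hd
      have h6 : p ^ 2 - (p ^ 2 - 1) = 1 := by omega
      rw [h6] at h5
      exact hpr.one_lt.ne' (Nat.dvd_one.1 h5)
    rw [hTs _ hm z]
    have h7 : (p ^ 2 - 1) • z = -z := by
      have h4 : 1 ≤ p ^ 2 := Nat.one_le_pow _ _ (by omega)
      have h8 : (p ^ 2 - 1) • z + z = 0 := by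
        rw [← succ_nsmul, Nat.sub_add_cancel h4, ← hcard]
        exact card_nsmul_eq_zero'
      exact eq_neg_of_add_eq_zero_left h8
    rw [h7]
  have hord : addOrderOf x = p ^ 2 := by
    have h1 : addOrderOf x ∣ p ^ 2 := by rw [← hcard]; exact addOrderOf_dvd_natCard x
    obtain ⟨i, hi, hxi⟩ := (Nat.dvd_prime_pow hpr).1 h1
    rw [hxi]
    rcases (by omega : i ≤ 1 ∨ i = 2) with h2 | h2
    · exfalso
      apply hx
      rw [← addOrderOf_dvd_iff_nsmul_eq_zero, hxi]
      calc p ^ i ∣ p ^ 1 := pow_dvd_pow p h2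
        _ = p := pow_one p
    · rw [h2]
  -- every element is a multiple of x
  have hgen : ∀ y : R, ∃ j : ℕ, y = j • x := by
    intro y
    have h1 : Nat.card (AddSubgroup.zmultiples x) = Nat.card R := by
      rw [Nat.card_zmultiples, hord, hcard]
    have h2 : AddSubgroup.zmultiples x = ⊤ := AddSubgroup.eq_top_of_card_eq _ h1
    have h3 : y ∈ AddSubgroup.zmultiples x := by rw [h2]; exact AddSubgroup.mem_top y
    rw [mem_zmultiples_iff_mem_range_addOrderOf] at h3
    obtain ⟨j, -, hj⟩ := mem_image.1 h3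
    exact ⟨j, hj.symm⟩
  -- types of elements
  have htype : ∀ y : R, y ≠ 0 → (∃ m : ℕ, p.Coprime m ∧ y = m • x) ∨
      (∃ m : ℕ, p.Coprime m ∧ y = m • (p • x)) := by
    intro y hy
    obtain ⟨j, rfl⟩ := hgen y
    by_cases h1 : p ∣ j
    · right
      obtain ⟨m, rfl⟩ := h1
      refine ⟨m, ?_, by rw [smul_smul, mul_comm]⟩
      rw [Nat.Prime.coprime_iff_not_dvd hpr]
      rintro ⟨k, rfl⟩
      apply hy
      have : p * (p * k) = k * p ^ 2 := by ring
      rw [this, ← smul_smul, ← hord, addOrderOf_nsmul_eq_zero, smul_zero]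
    · left
      exact ⟨j, (Nat.Prime.coprime_iff_not_dvd hpr).2 h1, rfl⟩
  have hcases : (x ∈ T ∧ p • x ∉ T) ∨ (x ∉ T ∧ p • x ∈ T) := by
    have hv0 : v ≠ 0 := by rintro rfl; exact h0 hv
    have h1 : x ∈ T ∨ p • x ∈ T := by
      rcases htype v hv0 with ⟨m, hm, rfl⟩ | ⟨m, hm, rfl⟩
      · exact Or.inl ((hTs m hm x).2 hv)
      · exact Or.inr ((hTs m hm (p • x)).2 hv)
    have h2 : x ∉ T ∨ p • x ∉ T := by
      rcases htype u hu0 with ⟨m, hm, rfl⟩ | ⟨m, hm, rfl⟩
      · exact Or.inl (fun h => hu ((hTs m hm x).1 h))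
      · exact Or.inr (fun h => hu ((hTs m hm (p • x)).1 h))
    tauto
  -- multiples with small coefficients
  have hsmall : ∀ y : R, p • x ≠ 0 → (y = x ∨ y = p • x) → ∀ k < p, ∀ k' < p, k ≠ k' →
      (k • y - k' • y ∈ T ↔ y ∈ T) := by
    intro y _ _ k hk k' hk' hne
    rcases lt_or_gt_of_ne hne with h1 | h1
    · have h2 : k • y - k' • y = -((k' - k) • y) := by
        rw [sub_nsmul _ h1.le]; abel
      rw [h2, ← hneg]
      refine (hTs (k' - k) ?_ y).symm
      exact (Nat.coprime_of_lt_prime (by omega) (by omega) hpr)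
    · have h2 : k • y - k' • y = (k - k') • y := by
        rw [sub_nsmul _ h1.le]; abel
      rw [h2]
      refine (hTs (k - k') ?_ y).symm
      exact (Nat.coprime_of_lt_prime (by omega) (by omega) hpr)
  let A : Finset R := (Finset.range p).image (fun k : ℕ => k • x)
  let B : Finset R := (Finset.range p).image (fun k : ℕ => k • (p • x))
  have hordp : addOrderOf (p • x) = p := by
    rw [addOrderOf_nsmul' x (by omega), hord]
    have : Nat.gcd (p ^ 2) p = p := Nat.gcd_eq_right (dvd_pow_self p (by norm_num))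
    rw [this, sq, Nat.mul_div_cancel _ (by omega)]
  have hAc : A.card = p := by
    show ((Finset.range p).image (fun k : ℕ => k • x)).card = p
    rw [Finset.card_image_of_injOn, Finset.card_range]
    intro k hk k' hk' hkk
    have hk1 : k < p := mem_range.1 hk
    have hk1' : k' < p := mem_range.1 hk'
    have hpp : p ≤ addOrderOf x := by rw [hord]; nlinarith
    exact nsmul_injOn_Iio_addOrderOf (Set.mem_Iio.2 (by omega)) (Set.mem_Iio.2 (by omega)) hkk
  have hBc : B.card = p := by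
    show ((Finset.range p).image (fun k : ℕ => k • (p • x))).card = p
    rw [Finset.card_image_of_injOn, Finset.card_range]
    intro k hk k' hk' hkk
    have hk1 : k < p := mem_range.1 hk
    have hk1' : k' < p := mem_range.1 hk'
    exact nsmul_injOn_Iio_addOrderOf (Set.mem_Iio.2 (by rw [hordp]; omega))
      (Set.mem_Iio.2 (by rw [hordp]; omega)) hkk
  have hTG : ∀ g ∈ G, ∀ x y : R, y - x ∈ T → g y - g x ∈ T :=
    fun g hg x y => (hT g (le_withMultipliers G hg) x y).1
  have hclique : ∀ y : R, (y = x ∨ y = p • x) → y ∈ T →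
      ∀ a ∈ (Finset.range p).image (fun k : ℕ => k • y),
      ∀ a' ∈ (Finset.range p).image (fun k : ℕ => k • y), a ≠ a' → a - a' ∈ T := by
    intro y hy hyT a ha a' ha' hne
    obtain ⟨k, hk, rfl⟩ := mem_image.1 ha
    obtain ⟨k', hk', rfl⟩ := mem_image.1 ha'
    refine (hsmall y hx hy k (mem_range.1 hk) k' (mem_range.1 hk') ?_).2 hyT
    rintro rfl
    exact hne rfl
  have hcoclique : ∀ y : R, (y = x ∨ y = p • x) → y ∉ T →
      ∀ a ∈ (Finset.range p).image (fun k : ℕ => k • y),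
      ∀ a' ∈ (Finset.range p).image (fun k : ℕ => k • y), a - a' ∉ T := by
    intro y hy hyT a ha a' ha' hmem
    obtain ⟨k, hk, rfl⟩ := mem_image.1 ha
    obtain ⟨k', hk', rfl⟩ := mem_image.1 ha'
    by_cases hkk : k = k'
    · rw [hkk, sub_self] at hmem
      exact h0 hmem
    · exact hyT ((hsmall y hx hy k (mem_range.1 hk) k' (mem_range.1 hk') hkk).1 hmem)
  rcases hcases with ⟨h1, h2⟩ | ⟨h1, h2⟩
  · have h3 : HasMinRank G A.card :=
      hasMinRank_of G T hTG h0 A B (by omega) (by rw [hAc, hBc, hcard, sq])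
        (hclique x (Or.inl rfl) h1) (hcoclique (p • x) (Or.inr rfl) h2)
    exact (not_synchronizing_iff G).2 ⟨A.card, by omega, h3⟩
  · have h3 : HasMinRank G B.card :=
      hasMinRank_of G T hTG h0 B A (by omega) (by rw [hAc, hBc, hcard, sq])
        (hclique (p • x) (Or.inr rfl) h2) (hcoclique x (Or.inl rfl) h1)
    exact (not_synchronizing_iff G).2 ⟨B.card, by omega, h3⟩

/-- Degree `p ^ 2`. -/
theorem synchronizing_iff_two_transitive (p : ℕ) [Fact p.Prime] (hcard : Nat.card R = p ^ 2)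
    (G : Subgroup (Equiv.Perm R)) (hG : ∀ a : R, Equiv.addRight a ∈ G) :
    Synchronizing G ↔ ∀ x y x' y' : R, x ≠ y → x' ≠ y' →
      ∃ g ∈ withMultipliers G, g x = x' ∧ g y = y' := by
  constructor
  · intro hs
    by_contra hcon
    obtain ⟨T, v, u, hv, hu, hu0, h0, hT⟩ := exists_T_of_not_two_transitive G hG hcon
    by_cases hexp : ∀ x : R, p • x = 0
    · exact not_sync_of_T_elem p hcard hexp G T v u hv hu hu0 h0 hT hs
    · push Not at hexp
      obtain ⟨x, hx⟩ := hexp
      exact not_sync_of_T_cyc p hcard x hx G T v u hv hu hu0 h0 hT hs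
  · exact synchronizing_of_two_transitive G hG

end Pool.Agent.SyncPerm
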